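import Mathlib

/-!
# Gaussian sums of symmetric matrices in injective l_p norms (MP_e7fc82_pr, r = 2, 2 < p < 4)

Definitions and statements of the tasks. Everything is elementary; signs are `Bool`.
-/

namespace Pool.Agent.H507R3.GI

open scoped BigOperators
open MeasureTheory ProbabilityTheory Matrix

/-- quadratic form `⟨M, x ⊗ x⟩` -/
def qf {d : ℕ} (M : Matrix (Fin d) (Fin d) ℝ) (x : Fin d → ℝ) : ℝ :=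
  ∑ k, ∑ l, M k l * x k * x l

/-- `(∑ |x_k|^p)^(1/p)` -/
noncomputable def pn {d : ℕ} (p : ℝ) (x : Fin d → ℝ) : ℝ := (∑ k, |x k| ^ p) ^ (1 / p)

/-- the symmetric injective `ℓ_p` norm of a symmetric matrix -/
noncomputable def injN {d : ℕ} (p : ℝ) (M : Matrix (Fin d) (Fin d) ℝ) : ℝ :=
  sSup {a : ℝ | ∃ x : Fin d → ℝ, pn p x ≤ 1 ∧ a = |qf M x|}

/-- sign of a Boolean -/
def sg (b : Bool) : ℝ := if b then 1 else -1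

/-- `-D_w ≤ M ≤ D_w`, `w ≥ 0` -/
def IsW {d : ℕ} (M : Matrix (Fin d) (Fin d) ℝ) (w : Fin d → ℝ) : Prop :=
  (∀ k, 0 ≤ w k) ∧ ∀ x : Fin d → ℝ, |qf M x| ≤ ∑ k, w k * x k ^ 2

/-- `‖w‖_s`, `s = p / (p - 2)` -/
noncomputable def sn {d : ℕ} (p : ℝ) (w : Fin d → ℝ) : ℝ :=
  (∑ k, w k ^ (p / (p - 2))) ^ ((p - 2) / p)

/-- (NOR) basic facts on `injN`: the bound holds for all vectors, and conversely. -/
def S_NOR : Prop := ∀ (d : ℕ) (p : ℝ) (M : Matrix (Fin d) (Fin d) ℝ), 2 < p →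
  0 ≤ injN p M ∧ (∀ x : Fin d → ℝ, |qf M x| ≤ injN p M * pn p x ^ 2) ∧
  (∀ N : ℝ, 0 ≤ N → (∀ x : Fin d → ℝ, |qf M x| ≤ N * pn p x ^ 2) → injN p M ≤ N)

/-- (KH) Khintchine with fourth moments and Jensen -/
def S_KH : Prop := ∀ (d : ℕ) (p : ℝ) (b : Fin d → ℝ), 2 < p → p < 4 →
  ∑ e : Fin d → Bool, |∑ i, b i * sg (e i)| ^ p ≤ 2 ^ d * (3 ^ (p / 4) * (∑ i, b i ^ 2) ^ (p / 2))

/-- (RND) Rademacher rounding -/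
def S_RND : Prop := S_KH → ∀ (d : ℕ) (p N : ℝ) (M B : Matrix (Fin d) (Fin d) ℝ), 2 < p → p < 4 →
  0 ≤ N → (∀ x : Fin d → ℝ, |qf M x| ≤ N * pn p x ^ 2) →
  |Matrix.trace (M * (B * Bᵀ))| ≤ Real.sqrt 3 * N * (∑ k, ((B * Bᵀ) k k) ^ (p / 2)) ^ (2 / p)

/-- (MAX) one-sided weights from a maximiser of `tr (M X)`, `X` PSD, `‖diag X‖_{p/2} ≤ 1` -/
def S_MAX : Prop := ∀ (d : ℕ) (p L : ℝ) (M : Matrix (Fin d) (Fin d) ℝ), 2 < p → p < 4 → 0 ≤ L →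
  M.IsSymm →
  (∀ B : Matrix (Fin d) (Fin d) ℝ,
    Matrix.trace (M * (B * Bᵀ)) ≤ L * (∑ k, ((B * Bᵀ) k k) ^ (p / 2)) ^ (2 / p)) →
  ∃ w : Fin d → ℝ, (∀ k, 0 ≤ w k) ∧ (∀ x : Fin d → ℝ, qf M x ≤ ∑ k, w k * x k ^ 2) ∧ sn p w ≤ L

/-- (WGT) two-sided weights -/
def S_WGT : Prop := S_KH → S_RND → S_MAX →
  ∀ (d : ℕ) (p N : ℝ) (M : Matrix (Fin d) (Fin d) ℝ), 2 < p → p < 4 → 0 ≤ N → M.IsSymm →
  (∀ x : Fin d → ℝ, |qf M x| ≤ N * pn p x ^ 2) →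
  ∃ w : Fin d → ℝ, IsW M w ∧ sn p w ≤ 4 * N

/-- (TRI) trace inequality -/
def S_TRI : Prop := ∀ (d : ℕ) (A W Y : Matrix (Fin d) (Fin d) ℝ) (k m : ℕ),
  A.IsSymm → W.IsSymm → Y.IsSymm → Even (k + m) →
  trace (A * W ^ k * A * Y ^ m) ≤ trace (A * W ^ (k + m) * A) + trace (A * Y ^ (k + m) * A)

/-- (DIF) one-coordinate difference -/
def S_DIF : Prop := S_TRI → ∀ (d : ℕ) (A S : Matrix (Fin d) (Fin d) ℝ) (m : ℕ),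
  A.IsSymm → S.IsSymm → Even m →
  trace (A * (S + A) ^ (m + 1)) - trace (A * (S - A) ^ (m + 1)) ≤
    2 * (m + 1) * (trace (A * (S + A) ^ m * A) + trace (A * (S - A) ^ m * A))

/-- the random matrix -/
noncomputable def RX {d n : ℕ} (A : Fin n → Matrix (Fin d) (Fin d) ℝ) (e : Fin n → Bool) :
    Matrix (Fin d) (Fin d) ℝ := ∑ i, sg (e i) • A i

/-- (MOM) moment recursion -/
def S_MOM : Prop := S_TRI → S_DIF → ∀ (d n : ℕ) (A : Fin n → Matrix (Fin d) (Fin d) ℝ) (σ : ℝ),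
  (∀ i, (A i).IsSymm) → 0 ≤ σ →
  (∀ x : Fin d → ℝ, ∑ i, ∑ k, ((A i *ᵥ x) k) ^ 2 ≤ σ * ∑ k, x k ^ 2) →
  ∀ q : ℕ, ∑ e : Fin n → Bool, trace (RX A e ^ (2 * q)) ≤ 2 ^ n * ((4 * q * σ) ^ q * d)

/-- (OPN) quadratic forms are bounded by trace powers -/
def S_OPN : Prop := ∀ (d q : ℕ) (X : Matrix (Fin d) (Fin d) ℝ) (x : Fin d → ℝ), X.IsSymm → 1 ≤ q →
  0 ≤ trace (X ^ (2 * q)) ∧
  |qf X x| ≤ (trace (X ^ (2 * q))) ^ (1 / (2 * q : ℝ)) * ∑ k, x k ^ 2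

/-- (FST) from moments to the first moment: numeric -/
def S_FST : Prop := ∀ (d n : ℕ) (σ : ℝ) (T : ℕ → (Fin n → Bool) → ℝ), 1 ≤ d → 0 ≤ σ →
  (∀ q e, 1 ≤ q → 0 ≤ T q e) →
  (∀ q : ℕ, 1 ≤ q → ∑ e, T q e ≤ 2 ^ n * ((4 * q * σ) ^ q * d)) →
  ∃ q : ℕ, 1 ≤ q ∧ ∑ e, (T q e) ^ (1 / (2 * q : ℝ)) ≤
    2 ^ n * (4 * Real.sqrt (σ * (2 + Real.log d)))

/-- (SWT) the master weight -/
def S_SWT : Prop := ∀ (d n : ℕ) (p : ℝ) (M : Fin n → Matrix (Fin d) (Fin d) ℝ)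
  (w : Fin n → Fin d → ℝ) (c : Fin n → ℝ), 1 ≤ d → 2 < p → p < 4 →
  (∀ i, (M i).IsSymm) → (∀ i, IsW (M i) (w i)) → (∀ i, sn p (w i) ≤ c i) →
  0 < ∑ i, c i ^ 2 →
  ∃ u : Fin d → ℝ, (∀ k, 0 < u k) ∧
    sn p u ≤ 2 * ((d : ℝ) ^ ((1 : ℝ) / 2 - 1 / p) * Real.sqrt (∑ i, c i ^ 2)) ∧
    ∀ y : Fin d → ℝ, ∑ i, ∑ k, ((M i *ᵥ y) k) ^ 2 / u k ≤ ∑ k, u k * y k ^ 2

/-- (SGN) the bound for random signs with fixed coefficients `g` -/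
def S_SGN : Prop := S_NOR → S_TRI → S_DIF → S_MOM → S_OPN → S_FST →
  ∀ (d n : ℕ) (p : ℝ) (M : Fin n → Matrix (Fin d) (Fin d) ℝ) (u : Fin d → ℝ) (g : Fin n → ℝ)
  (G : ℝ), 1 ≤ d → 2 < p → p < 4 → (∀ i, (M i).IsSymm) → (∀ k, 0 < u k) →
  (∀ y : Fin d → ℝ, ∑ i, ∑ k, ((M i *ᵥ y) k) ^ 2 / u k ≤ ∑ k, u k * y k ^ 2) →
  0 ≤ G → (∀ i, |g i| ≤ G) →
  ∑ e : Fin n → Bool, injN p (∑ i, (sg (e i) * g i) • M i) ≤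
    2 ^ n * (4 * G * Real.sqrt (2 + Real.log d) * sn p u)

/-- (GMX) expected maximum of Gaussians -/
def S_GMX : Prop := ∀ (n : ℕ), 1 ≤ n → ∃ h : (Fin n → ℝ) → ℝ,
  (∀ g i, |g i| ≤ h g) ∧ Integrable h (Measure.pi fun _ : Fin n => gaussianReal 0 1) ∧
  ∫ g, h g ∂(Measure.pi fun _ : Fin n => gaussianReal 0 1) ≤ 4 * Real.sqrt (1 + Real.log n)

/-- (SYM) symmetrisation and integration -/
def S_SYM : Prop := S_GMX → ∀ (n : ℕ) (f : (Fin n → ℝ) → ℝ) (K L : ℝ), 1 ≤ n → 0 ≤ K → 0 ≤ L →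
  Continuous f → (∀ g, 0 ≤ f g) → (∀ g, f g ≤ L * ∑ i, |g i|) →
  (∀ (g : Fin n → ℝ) (G : ℝ), 0 ≤ G → (∀ i, |g i| ≤ G) →
    ∑ e : Fin n → Bool, f (fun i => sg (e i) * g i) ≤ 2 ^ n * (K * G)) →
  ∫ g, f g ∂(Measure.pi fun _ : Fin n => gaussianReal 0 1) ≤ K * (4 * Real.sqrt (1 + Real.log n))

/-- (CON) continuity of the norm along the sum -/
def S_CON : Prop := S_NOR → ∀ (d n : ℕ) (p : ℝ) (M : Fin n → Matrix (Fin d) (Fin d) ℝ), 2 < p →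
  Continuous (fun g : Fin n → ℝ => injN p (∑ i, g i • M i)) ∧
  ∃ L : ℝ, 0 ≤ L ∧ ∀ g : Fin n → ℝ, injN p (∑ i, g i • M i) ≤ L * ∑ i, |g i|

/-- the result -/
def S_END : Prop := ∀ p : ℝ, 2 < p → p < 4 → ∃ C : ℝ, 0 ≤ C ∧
  ∀ (d n : ℕ), 1 ≤ d → 1 ≤ n → ∀ M : Fin n → Matrix (Fin d) (Fin d) ℝ, (∀ i, (M i).IsSymm) →
  Integrable (fun g => injN p (∑ i, g i • M i)) (Measure.pi fun _ : Fin n => gaussianReal 0 1) ∧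
  ∫ g, injN p (∑ i, g i • M i) ∂(Measure.pi fun _ : Fin n => gaussianReal 0 1) ≤
    C * Real.log (Real.exp 1 * d * n) * (d : ℝ) ^ ((1 : ℝ) / 2 - 1 / p) *
      Real.sqrt (∑ i, injN p (M i) ^ 2)

end Pool.Agent.H507R3.GI
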