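import Mathlib
import Pool.Agent.H507R3.GI.Defs

/-!
# CON: continuity of the norm along the sum
-/

namespace Pool.Agent.H507R3.GI

open scoped BigOperators
open MeasureTheory ProbabilityTheory Matrix

namespace CONaux

theorem qf_add {d : ℕ} (A B : Matrix (Fin d) (Fin d) ℝ) (x : Fin d → ℝ) :
    qf (A + B) x = qf A x + qf B x := by
  unfold qf
  simp only [Matrix.add_apply, add_mul, Finset.sum_add_distrib]

theorem qf_smul {d : ℕ} (c : ℝ) (A : Matrix (Fin d) (Fin d) ℝ) (x : Fin d → ℝ) :
    qf (c • A) x = c * qf A x := by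
  unfold qf
  simp only [Matrix.smul_apply, smul_eq_mul, Finset.mul_sum]
  exact Finset.sum_congr rfl fun k _ => Finset.sum_congr rfl fun l _ => by ring

theorem qf_zero {d : ℕ} (x : Fin d → ℝ) : qf (0 : Matrix (Fin d) (Fin d) ℝ) x = 0 := by
  simp [qf]

theorem qf_sum {d n : ℕ} (s : Finset (Fin n)) (g : Fin n → ℝ)
    (M : Fin n → Matrix (Fin d) (Fin d) ℝ) (x : Fin d → ℝ) :
    qf (∑ i ∈ s, g i • M i) x = ∑ i ∈ s, g i * qf (M i) x := by
  classical
  induction s using Finset.induction_on with
  | empty => simp [qf_zero]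
  | insert a s ha ih => rw [Finset.sum_insert ha, Finset.sum_insert ha, qf_add, qf_smul, ih]

theorem key (hN : S_NOR) (d n : ℕ) (p : ℝ) (M : Fin n → Matrix (Fin d) (Fin d) ℝ) (hp : 2 < p)
    (g g' : Fin n → ℝ) : injN p (∑ i, g i • M i) ≤
      injN p (∑ i, g' i • M i) + ∑ i, |g i - g' i| * injN p (M i) := by
  have h0 : 0 ≤ ∑ i, |g i - g' i| * injN p (M i) :=
    Finset.sum_nonneg fun i _ => mul_nonneg (abs_nonneg _) (hN d p (M i) hp).1
  obtain ⟨h1, h2, -⟩ := hN d p (∑ i, g' i • M i) hp
  refine (hN d p (∑ i, g i • M i) hp).2.2 _ (by linarith) fun x => ?_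
  have e : qf (∑ i, g i • M i) x = qf (∑ i, g' i • M i) x + ∑ i, (g i - g' i) * qf (M i) x := by
    rw [qf_sum, qf_sum, ← Finset.sum_add_distrib]
    exact Finset.sum_congr rfl fun i _ => by ring
  rw [e, add_mul]
  refine (abs_add_le _ _).trans (add_le_add (h2 x) ?_)
  refine (Finset.abs_sum_le_sum_abs _ _).trans ?_
  rw [Finset.sum_mul]
  refine Finset.sum_le_sum fun i _ => ?_
  rw [abs_mul, mul_assoc]
  exact mul_le_mul_of_nonneg_left ((hN d p (M i) hp).2.1 x) (abs_nonneg _)

end CONaux

open CONaux in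
theorem t_CON : S_CON := by
  intro hN d n p M hp
  set L : ℝ := ∑ i, injN p (M i) with hL
  have hi : ∀ i, 0 ≤ injN p (M i) := fun i => (hN d p (M i) hp).1
  have hL0 : 0 ≤ L := Finset.sum_nonneg fun i _ => hi i
  have hiL : ∀ i, injN p (M i) ≤ L := fun i =>
    Finset.single_le_sum (f := fun i => injN p (M i)) (fun j _ => hi j) (Finset.mem_univ i)
  constructor
  · have hone : ∀ g g' : Fin n → ℝ, injN p (∑ i, g i • M i) - injN p (∑ i, g' i • M i) ≤
        L * dist g g' := by
      intro g g'
      have h := key hN d n p M hp g g'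
      have h2 : ∑ i, |g i - g' i| * injN p (M i) ≤ L * dist g g' := by
        rw [hL, Finset.sum_mul]
        refine Finset.sum_le_sum fun i _ => ?_
        rw [mul_comm]
        refine mul_le_mul_of_nonneg_left ?_ (hi i)
        have := dist_le_pi_dist g g' i
        rwa [Real.dist_eq] at this
      linarith
    have hlip : LipschitzWith (Real.toNNReal L) (fun g : Fin n → ℝ => injN p (∑ i, g i • M i)) := by
      refine LipschitzWith.of_dist_le_mul fun g g' => ?_
      rw [Real.coe_toNNReal L hL0, Real.dist_eq, abs_le]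
      have h1 := hone g g'
      have h2 := hone g' g
      rw [dist_comm g' g] at h2
      constructor <;> linarith
    exact hlip.continuous
  · refine ⟨L, hL0, fun g => ?_⟩
    have h := key hN d n p M hp g (fun _ => 0)
    have h0 : injN p (∑ i, (fun _ : Fin n => (0 : ℝ)) i • M i) ≤ 0 := by
      refine (hN d p _ hp).2.2 0 le_rfl fun x => ?_
      simp [qf_zero]
    have h2 : ∑ i, |g i - (fun _ : Fin n => (0 : ℝ)) i| * injN p (M i) ≤ L * ∑ i, |g i| := by
      rw [Finset.mul_sum]
      refine Finset.sum_le_sum fun i _ => ?_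
      simp only [sub_zero]
      rw [mul_comm]
      exact mul_le_mul_of_nonneg_right (hiL i) (abs_nonneg _)
    linarith

end Pool.Agent.H507R3.GI
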