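import Mathlib
import Pool.Agent.H507R3.GI.Defs

/-! DIF: one-coordinate difference. -/

namespace Pool.Agent.H507R3.GI

open scoped BigOperators
open Matrix

/-- telescoping sum for powers of two matrices -/
theorem DIF_tele {d : ℕ} (X Y : Matrix (Fin d) (Fin d) ℝ) (m : ℕ) :
    X ^ (m + 1) - Y ^ (m + 1) = ∑ k ∈ Finset.range (m + 1), X ^ k * (X - Y) * Y ^ (m - k) := by
  induction m with
  | zero => simp
  | succ m ih =>
    rw [Finset.sum_range_succ]
    have h1 : ∑ k ∈ Finset.range (m + 1), X ^ k * (X - Y) * Y ^ (m + 1 - k) =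
        (∑ k ∈ Finset.range (m + 1), X ^ k * (X - Y) * Y ^ (m - k)) * Y := by
      rw [Finset.sum_mul]
      refine Finset.sum_congr rfl fun k hk => ?_
      have : m + 1 - k = (m - k) + 1 := by
        have := Finset.mem_range.1 hk
        omega
      rw [this, pow_succ Y (m - k), ← mul_assoc]
    rw [h1, ← ih, Nat.sub_self, pow_zero, mul_one, pow_succ X (m + 1), pow_succ Y (m + 1)]
    noncomm_ring

theorem t_DIF : S_DIF := by
  intro hTRI d A S m hA hS hm
  have h1 : trace (A * (S + A) ^ (m + 1)) - trace (A * (S - A) ^ (m + 1)) =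
      2 * ∑ k ∈ Finset.range (m + 1), trace (A * (S + A) ^ k * A * (S - A) ^ (m - k)) := by
    rw [← trace_sub, ← mul_sub, DIF_tele, Finset.mul_sum, trace_sum, Finset.mul_sum]
    refine Finset.sum_congr rfl fun k _ => ?_
    have h2 : S + A - (S - A) = (2 : ℝ) • A := by
      rw [two_smul]
      abel
    rw [h2, mul_smul_comm, smul_mul_assoc, mul_smul_comm, trace_smul, smul_eq_mul, ← mul_assoc,
      ← mul_assoc]
  rw [h1]
  have h3 : ∑ k ∈ Finset.range (m + 1), trace (A * (S + A) ^ k * A * (S - A) ^ (m - k)) ≤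
      ∑ k ∈ Finset.range (m + 1),
        (trace (A * (S + A) ^ m * A) + trace (A * (S - A) ^ m * A)) := by
    refine Finset.sum_le_sum fun k hk => ?_
    have hk' : k + (m - k) = m := by
      have := Finset.mem_range.1 hk
      omega
    have h4 := hTRI d A (S + A) (S - A) k (m - k) hA (hS.add hA) (hS.sub hA) (by rwa [hk'])
    rwa [hk'] at h4
  rw [Finset.sum_const, Finset.card_range, nsmul_eq_mul] at h3
  push_cast at h3
  linarith

end Pool.Agent.H507R3.GI
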