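import Mathlib
import Pool.Agent.H507R3.GI.Defs

set_option autoImplicit false

namespace Pool.Agent.H507R3.GI

open scoped BigOperators
open MeasureTheory ProbabilityTheory Matrix

theorem t_FST : S_FST := by
  intro d n σ T hd hσ hT hsum
  have hd1 : (1 : ℝ) ≤ d := by exact_mod_cast hd
  have hlog : 0 ≤ Real.log d := Real.log_nonneg hd1
  set q : ℕ := ⌈Real.log d⌉₊ + 1 with hq
  have hq1 : 1 ≤ q := by omega
  have hqlo : Real.log d ≤ q := by
    have := Nat.le_ceil (Real.log d)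
    rw [hq]; push_cast; linarith
  have hqhi : (q : ℝ) ≤ 2 + Real.log d := by
    have := Nat.ceil_lt_add_one hlog
    rw [hq]; push_cast; linarith
  have hq0 : (0 : ℝ) < q := by exact_mod_cast hq1
  refine ⟨q, hq1, ?_⟩
  set z : (Fin n → Bool) → ℝ := fun e => (T q e) ^ (1 / (2 * q : ℝ)) with hz
  have hz0 : ∀ e, 0 ≤ z e := fun e => Real.rpow_nonneg (hT q e hq1) _
  have hzp : ∀ e, z e ^ (2 * q) = T q e := by
    intro e
    show ((T q e) ^ (1 / (2 * q : ℝ))) ^ (2 * q) = T q e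
    rw [← Real.rpow_natCast, ← Real.rpow_mul (hT q e hq1)]
    have : (1 / (2 * q : ℝ)) * ((2 * q : ℕ) : ℝ) = 1 := by
      push_cast
      field_simp
    rw [this, Real.rpow_one]
  have h2n : (0 : ℝ) < 2 ^ n := by positivity
  have hw' : ∑ _e : Fin n → Bool, ((2 : ℝ) ^ n)⁻¹ = 1 := by
    rw [Finset.sum_const, Finset.card_univ, Fintype.card_fun, Fintype.card_bool, Fintype.card_fin,
      nsmul_eq_mul]
    push_cast
    exact mul_inv_cancel₀ h2n.ne'
  have hpm := Real.pow_arith_mean_le_arith_mean_pow Finset.univ (fun _ : Fin n → Bool => ((2 : ℝ) ^ n)⁻¹) z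
    (fun _ _ => (inv_pos.mpr h2n).le) hw' (fun e _ => hz0 e) (2 * q)
  rw [← Finset.mul_sum, ← Finset.mul_sum] at hpm
  simp only [hzp] at hpm
  have hB0 : 0 ≤ 4 * Real.sqrt (σ * (2 + Real.log d)) := by positivity
  have h1 : (((2 : ℝ) ^ n)⁻¹ * ∑ e, z e) ^ (2 * q) ≤ (4 * Real.sqrt (σ * (2 + Real.log d))) ^ (2 * q) := by
    refine hpm.trans ?_
    have h2 : ((2 : ℝ) ^ n)⁻¹ * ∑ e, T q e ≤ (4 * q * σ) ^ q * d := by
      rw [inv_mul_le_iff₀ h2n]
      exact hsum q hq1
    refine h2.trans ?_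
    have h3 : (4 * Real.sqrt (σ * (2 + Real.log d))) ^ (2 * q) = (16 * (σ * (2 + Real.log d))) ^ q := by
      rw [pow_mul, mul_pow, Real.sq_sqrt (by positivity)]
      norm_num
    rw [h3]
    have h4 : (d : ℝ) ≤ 4 ^ q := by
      have h5 : Real.exp (Real.log d) ≤ Real.exp q := Real.exp_le_exp.mpr hqlo
      rw [Real.exp_log (by linarith)] at h5
      have h6 : Real.exp (q : ℝ) = (Real.exp 1) ^ q := by
        rw [← Real.exp_nat_mul, mul_one]
      rw [h6] at h5
      refine h5.trans (pow_le_pow_left₀ (Real.exp_pos 1).le ?_ q)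
      linarith [Real.exp_one_lt_d9]
    calc (4 * q * σ) ^ q * (d : ℝ) ≤ (4 * q * σ) ^ q * 4 ^ q :=
          mul_le_mul_of_nonneg_left h4 (by positivity)
      _ = (16 * (σ * q)) ^ q := by
          rw [← mul_pow]
          congr 1
          ring
      _ ≤ (16 * (σ * (2 + Real.log d))) ^ q := by
          refine pow_le_pow_left₀ (by positivity) ?_ q
          have := mul_le_mul_of_nonneg_left hqhi hσ
          linarith
  have h7 := le_of_pow_le_pow_left₀ (by omega) hB0 h1
  rw [inv_mul_le_iff₀ h2n] at h7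
  exact h7

end Pool.Agent.H507R3.GI
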