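import Mathlib
import Pool.Agent.H507R3.GI.Defs

/-!
# Task GMX: expected maximum of Gaussians
-/

namespace Pool.Agent.H507R3.GI

open scoped BigOperators
open MeasureTheory ProbabilityTheory Matrix

theorem gmx_aux_integrable (a : ℝ) :
    Integrable (fun x : ℝ => Real.exp (a * |x|)) (gaussianReal 0 1) := by
  have h1 : Integrable (fun x : ℝ => Real.exp (a * x)) (gaussianReal 0 1) :=
    integrable_exp_mul_gaussianReal a
  have h2 : Integrable (fun x : ℝ => Real.exp (-a * x)) (gaussianReal 0 1) :=
    integrable_exp_mul_gaussianReal (-a)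
  refine (h1.add h2).mono' (by fun_prop) (Filter.Eventually.of_forall fun x => ?_)
  rw [Real.norm_eq_abs, abs_of_pos (Real.exp_pos _)]
  simp only [Pi.add_apply]
  rcases abs_cases x with ⟨h, _⟩ | ⟨h, _⟩
  · rw [h]; linarith [Real.exp_pos (-a * x)]
  · rw [h]
    have : a * -x = -a * x := by ring
    rw [this]; linarith [Real.exp_pos (a * x)]

theorem gmx_aux_integral (a : ℝ) :
    ∫ x : ℝ, Real.exp (a * |x|) ∂(gaussianReal 0 1) ≤ 2 * Real.exp (a ^ 2 / 2) := by
  have h1 : Integrable (fun x : ℝ => Real.exp (a * x)) (gaussianReal 0 1) :=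
    integrable_exp_mul_gaussianReal a
  have h2 : Integrable (fun x : ℝ => Real.exp (-a * x)) (gaussianReal 0 1) :=
    integrable_exp_mul_gaussianReal (-a)
  have m1 : ∀ t : ℝ, ∫ x : ℝ, Real.exp (t * x) ∂(gaussianReal 0 1) = Real.exp (t ^ 2 / 2) := by
    intro t
    have := congrFun (mgf_fun_id_gaussianReal (μ := 0) (v := 1)) t
    unfold mgf at this
    simpa using this
  calc ∫ x : ℝ, Real.exp (a * |x|) ∂(gaussianReal 0 1)
      ≤ ∫ x : ℝ, (Real.exp (a * x) + Real.exp (-a * x)) ∂(gaussianReal 0 1) := by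
        refine integral_mono (gmx_aux_integrable a) (h1.add h2) fun x => ?_
        simp only
        rcases abs_cases x with ⟨h, _⟩ | ⟨h, _⟩
        · rw [h]; linarith [Real.exp_pos (-a * x)]
        · rw [h]
          have : a * -x = -a * x := by ring
          rw [this]; linarith [Real.exp_pos (a * x)]
    _ = 2 * Real.exp (a ^ 2 / 2) := by
        rw [integral_add h1 h2, m1, m1]
        have : (-a) ^ 2 = a ^ 2 := by ring
        rw [this]; ring

theorem t_GMX : S_GMX := by
  intro n hn
  have hn1 : (1 : ℝ) ≤ n := by exact_mod_cast hn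
  have hlog : 0 ≤ Real.log n := Real.log_nonneg hn1
  set a : ℝ := Real.sqrt (2 * (1 + Real.log n)) with ha
  have hasq : a ^ 2 = 2 * (1 + Real.log n) := Real.sq_sqrt (by positivity)
  have ha1 : 1 ≤ a := by
    rw [ha, Real.one_le_sqrt]; linarith
  have ha0 : 0 < a := by linarith
  have hint : ∀ i : Fin n, Integrable (fun g : Fin n → ℝ => Real.exp (a * |g i|))
      (Measure.pi fun _ : Fin n => gaussianReal 0 1) := by
    intro i
    exact integrable_comp_eval (μ := fun _ : Fin n => gaussianReal 0 1)
      (f := fun x : ℝ => Real.exp (a * |x|)) (gmx_aux_integrable a)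
  have hinte : ∀ i : Fin n, ∫ g : Fin n → ℝ, Real.exp (a * |g i|)
      ∂(Measure.pi fun _ : Fin n => gaussianReal 0 1) ≤ 2 * Real.exp (a ^ 2 / 2) := by
    intro i
    rw [integral_comp_eval (μ := fun _ : Fin n => gaussianReal 0 1)
      (f := fun x : ℝ => Real.exp (a * |x|)) (gmx_aux_integrable a).aestronglyMeasurable]
    exact gmx_aux_integral a
  set h : (Fin n → ℝ) → ℝ := fun g =>
    a + ∑ i, (Real.exp (-a ^ 2) / a) * Real.exp (a * |g i|) with hh
  have hI2 : Integrable (fun g : Fin n → ℝ =>
      ∑ i, (Real.exp (-a ^ 2) / a) * Real.exp (a * |g i|))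
      (Measure.pi fun _ : Fin n => gaussianReal 0 1) :=
    integrable_finsetSum _ fun i _ => (hint i).const_mul _
  refine ⟨h, ?_, ?_, ?_⟩
  · intro g i
    have hpos : ∀ j : Fin n, 0 ≤ (Real.exp (-a ^ 2) / a) * Real.exp (a * |g j|) := by
      intro j; positivity
    have h1 : (Real.exp (-a ^ 2) / a) * Real.exp (a * |g i|) ≤
        ∑ i, (Real.exp (-a ^ 2) / a) * Real.exp (a * |g i|) :=
      Finset.single_le_sum (f := fun j => (Real.exp (-a ^ 2) / a) * Real.exp (a * |g j|))
        (fun j _ => hpos j) (Finset.mem_univ i)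
    have h2 : |g i| - a ≤ (Real.exp (-a ^ 2) / a) * Real.exp (a * |g i|) := by
      have e : (Real.exp (-a ^ 2) / a) * Real.exp (a * |g i|) =
          Real.exp (a * (|g i| - a)) / a := by
        rw [div_mul_eq_mul_div, ← Real.exp_add]
        congr 2; ring
      rw [e, le_div_iff₀ ha0]
      have := Real.add_one_le_exp (a * (|g i| - a))
      nlinarith
    simp only [hh]
    linarith
  · exact (integrable_const a).add hI2
  · simp only [hh]
    rw [integral_add (integrable_const a) hI2,
      integral_finsetSum _ fun i _ => (hint i).const_mul _]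
    simp only [integral_const, integral_const_mul]
    have hp : (Measure.pi fun _ : Fin n => gaussianReal 0 1).real Set.univ = 1 := by
      simp
    rw [hp, one_smul]
    have hs : ∑ i : Fin n, (Real.exp (-a ^ 2) / a) *
        ∫ g : Fin n → ℝ, Real.exp (a * |g i|) ∂(Measure.pi fun _ : Fin n => gaussianReal 0 1) ≤
        ∑ i : Fin n, (Real.exp (-a ^ 2) / a) * (2 * Real.exp (a ^ 2 / 2)) :=
      Finset.sum_le_sum fun i _ => mul_le_mul_of_nonneg_left (hinte i) (by positivity)
    have hs2 : ∑ i : Fin n, (Real.exp (-a ^ 2) / a) * (2 * Real.exp (a ^ 2 / 2)) ≤ 1 := by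
      rw [Finset.sum_const, Finset.card_univ, Fintype.card_fin, nsmul_eq_mul]
      have e : (n : ℝ) * ((Real.exp (-a ^ 2) / a) * (2 * Real.exp (a ^ 2 / 2))) =
          2 / a * Real.exp (-1) := by
        have e1 : Real.exp (-a ^ 2) * Real.exp (a ^ 2 / 2) = Real.exp (-1) / n := by
          rw [← Real.exp_add]
          have : -a ^ 2 + a ^ 2 / 2 = -1 - Real.log n := by rw [hasq]; ring
          rw [this, Real.exp_sub, Real.exp_log (by linarith)]
        have hn0 : (n : ℝ) ≠ 0 := by positivity
        calc (n : ℝ) * ((Real.exp (-a ^ 2) / a) * (2 * Real.exp (a ^ 2 / 2)))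
            = n * (2 / a) * (Real.exp (-a ^ 2) * Real.exp (a ^ 2 / 2)) := by ring
          _ = 2 / a * Real.exp (-1) := by rw [e1]; field_simp
      rw [e]
      have he : Real.exp (-1) ≤ 1 / 2 := by
        rw [Real.exp_neg, ← one_div]
        exact one_div_le_one_div_of_le (by norm_num) (by linarith [Real.exp_one_gt_d9])
      have h2a : 2 / a ≤ 2 := by
        rw [div_le_iff₀ ha0]; linarith
      have : 0 < Real.exp (-1) := Real.exp_pos _
      have h2a' : 0 ≤ 2 / a := by positivity
      nlinarith
    have hfin : a ≤ 2 * Real.sqrt (1 + Real.log n) := by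
      rw [ha, Real.sqrt_mul (by norm_num)]
      have : Real.sqrt 2 ≤ 2 := by
        rw [Real.sqrt_le_left (by norm_num)]; norm_num
      exact mul_le_mul_of_nonneg_right this (Real.sqrt_nonneg _)
    have hone : 1 ≤ Real.sqrt (1 + Real.log n) := by
      rw [Real.one_le_sqrt]; linarith
    linarith

end Pool.Agent.H507R3.GI
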