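import Mathlib
import Pool.Agent.H507R3.GI.Defs

namespace Pool.Agent.H507R3.GI

open scoped BigOperators

theorem KH_mom (d : ℕ) (b : Fin d → ℝ) :
    ∑ e : Fin d → Bool, (∑ i, b i * sg (e i)) ^ 2 = 2 ^ d * ∑ i, b i ^ 2 ∧
    ∑ e : Fin d → Bool, (∑ i, b i * sg (e i)) ^ 4 ≤ 2 ^ d * (3 * (∑ i, b i ^ 2) ^ 2) := by
  induction d with
  | zero => simp
  | succ d ih =>
    obtain ⟨h1, h2⟩ := ih (fun i => b i.succ)
    have hs : ∀ F : (Fin (d + 1) → Bool) → ℝ, ∑ e, F e =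
        ∑ e : Fin d → Bool, (F (Fin.cons true e) + F (Fin.cons false e)) := by
      intro F
      rw [← Equiv.sum_comp (Fin.consEquiv (fun _ : Fin (d + 1) => Bool)) F, Fintype.sum_prod_type,
        Fintype.sum_bool, ← Finset.sum_add_distrib]
      rfl
    have hS : ∀ (s : Bool) (e : Fin d → Bool), ∑ i, b i * sg ((Fin.cons s e : Fin (d + 1) → Bool) i) =
        b 0 * sg s + ∑ i, b i.succ * sg (e i) := by
      intro s e
      rw [Fin.sum_univ_succ]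
      simp
    have ht : sg true = 1 := rfl
    have hf : sg false = -1 := rfl
    have hb : ∑ i, b i ^ 2 = b 0 ^ 2 + ∑ i : Fin d, b i.succ ^ 2 := Fin.sum_univ_succ _
    have hc : ∑ _e : Fin d → Bool, (1 : ℝ) = 2 ^ d := by simp
    constructor
    · rw [hs]
      simp only [hS, ht, hf]
      have e1 : ∀ e : Fin d → Bool, (b 0 * 1 + ∑ i, b i.succ * sg (e i)) ^ 2 +
          (b 0 * -1 + ∑ i, b i.succ * sg (e i)) ^ 2 =
          2 * b 0 ^ 2 * 1 + 2 * (∑ i, b i.succ * sg (e i)) ^ 2 := by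
        intro e; ring
      simp_rw [e1]
      rw [Finset.sum_add_distrib, ← Finset.mul_sum, ← Finset.mul_sum, hc, h1, hb]
      ring
    · rw [hs]
      simp only [hS, ht, hf]
      have e1 : ∀ e : Fin d → Bool, (b 0 * 1 + ∑ i, b i.succ * sg (e i)) ^ 4 +
          (b 0 * -1 + ∑ i, b i.succ * sg (e i)) ^ 4 =
          (2 * b 0 ^ 4 * 1 + 12 * b 0 ^ 2 * (∑ i, b i.succ * sg (e i)) ^ 2) +
            2 * (∑ i, b i.succ * sg (e i)) ^ 4 := by
        intro e; ring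
      simp_rw [e1]
      rw [Finset.sum_add_distrib, Finset.sum_add_distrib, ← Finset.mul_sum, ← Finset.mul_sum,
        ← Finset.mul_sum, hc, h1, hb]
      have h3 : (0 : ℝ) < 2 ^ d := by positivity
      have h4 : 0 ≤ b 0 ^ 4 * 2 ^ d := by positivity
      calc 2 * b 0 ^ 4 * 2 ^ d + 12 * b 0 ^ 2 * (2 ^ d * ∑ i : Fin d, b i.succ ^ 2) +
            2 * ∑ e : Fin d → Bool, (∑ i, b i.succ * sg (e i)) ^ 4
          ≤ 2 * b 0 ^ 4 * 2 ^ d + 12 * b 0 ^ 2 * (2 ^ d * ∑ i : Fin d, b i.succ ^ 2) +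
            2 * (2 ^ d * (3 * (∑ i : Fin d, b i.succ ^ 2) ^ 2)) := by linarith
        _ ≤ 2 ^ (d + 1) * (3 * (b 0 ^ 2 + ∑ i : Fin d, b i.succ ^ 2) ^ 2) := by
          have h5 : 2 ^ (d + 1) * (3 * (b 0 ^ 2 + ∑ i : Fin d, b i.succ ^ 2) ^ 2) -
              (2 * b 0 ^ 4 * 2 ^ d + 12 * b 0 ^ 2 * (2 ^ d * ∑ i : Fin d, b i.succ ^ 2) +
                2 * (2 ^ d * (3 * (∑ i : Fin d, b i.succ ^ 2) ^ 2))) = 4 * (b 0 ^ 4 * 2 ^ d) := by
            ring
          linarith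

theorem t_KH : S_KH := by
  intro d p b hp2 hp4
  obtain ⟨-, h4⟩ := KH_mom d b
  have hN : (0 : ℝ) < 2 ^ d := by positivity
  set S : (Fin d → Bool) → ℝ := fun e => ∑ i, b i * sg (e i) with hS
  have hJ := Real.rpow_arith_mean_le_arith_mean_rpow (Finset.univ : Finset (Fin d → Bool))
    (fun _ => ((2 : ℝ) ^ d)⁻¹) (fun e => |S e| ^ p) (fun _ _ => by positivity)
    (by simp) (fun _ _ => by positivity) (p := 4 / p) (by rw [le_div_iff₀ (by linarith)]; linarith)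
  have e1 : ∀ e, (|S e| ^ p) ^ (4 / p) = S e ^ 4 := by
    intro e
    rw [← Real.rpow_mul (abs_nonneg _), mul_div_cancel₀ _ (by linarith : p ≠ 0)]
    have : |S e| ^ (4 : ℝ) = |S e| ^ 4 := by
      rw [← Real.rpow_natCast]; norm_num
    rw [this, pow_abs, abs_of_nonneg (by positivity)]
  simp_rw [e1] at hJ
  rw [← Finset.mul_sum, ← Finset.mul_sum] at hJ
  set T : ℝ := ∑ e, |S e| ^ p with hT
  have hT0 : 0 ≤ T := Finset.sum_nonneg fun _ _ => by positivity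
  have hB : 0 ≤ ∑ i, b i ^ 2 := Finset.sum_nonneg fun _ _ => sq_nonneg _
  have h5 : ((2 ^ d)⁻¹ * T) ^ (4 / p) ≤ 3 * (∑ i, b i ^ 2) ^ 2 := by
    refine hJ.trans ?_
    rw [inv_mul_le_iff₀ hN]
    exact h4
  have h6 := Real.rpow_le_rpow (by positivity) h5 (by linarith : 0 ≤ p / 4)
  rw [← Real.rpow_mul (by positivity), show 4 / p * (p / 4) = 1 by field_simp, Real.rpow_one,
    inv_mul_le_iff₀ hN, Real.mul_rpow (by norm_num) (by positivity)] at h6
  have e2 : ((∑ i, b i ^ 2) ^ 2) ^ (p / 4) = (∑ i, b i ^ 2) ^ (p / 2) := by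
    rw [← Real.rpow_natCast, ← Real.rpow_mul hB]
    congr 1
    push_cast
    ring
  rw [e2] at h6
  exact h6

end Pool.Agent.H507R3.GI
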