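import Mathlib
import Pool.Agent.H507R3.GI.Defs

/-!
# MAX: weights from a maximiser (helper497)
-/

set_option autoImplicit false

namespace Pool.Agent.H507R3.GI

open scoped BigOperators
open MeasureTheory ProbabilityTheory Matrix

namespace MAXx

open scoped MatrixOrder in
/-- factorisation of a positive semidefinite matrix -/
lemma psd_factor {d : ℕ} {A : Matrix (Fin d) (Fin d) ℝ} (hA : A.PosSemidef) :
    ∃ B : Matrix (Fin d) (Fin d) ℝ, A = B * Bᵀ := by
  obtain ⟨B, hB⟩ := CStarAlgebra.nonneg_iff_eq_star_mul_self.mp hA.nonneg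
  refine ⟨Bᵀ, ?_⟩
  rw [hB, transpose_transpose, star_eq_conjTranspose, conjTranspose_eq_transpose_of_trivial]

lemma diag_eq {d : ℕ} (B : Matrix (Fin d) (Fin d) ℝ) (k : Fin d) :
    (B * Bᵀ) k k = ∑ j, B k j ^ 2 := by
  rw [Matrix.mul_apply]
  refine Finset.sum_congr rfl fun j _ => ?_
  rw [transpose_apply]
  ring

lemma diag_nonneg {d : ℕ} (B : Matrix (Fin d) (Fin d) ℝ) (k : Fin d) : 0 ≤ (B * Bᵀ) k k := by
  rw [diag_eq]
  positivity

/-- the constraint -/
noncomputable def Ph {d : ℕ} (q : ℝ) (B : Matrix (Fin d) (Fin d) ℝ) : ℝ :=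
  ∑ k, ((B * Bᵀ) k k) ^ q

lemma Ph_nonneg {d : ℕ} (q : ℝ) (B : Matrix (Fin d) (Fin d) ℝ) : 0 ≤ Ph q B :=
  Finset.sum_nonneg fun k _ => Real.rpow_nonneg (diag_nonneg B k) q

lemma Ph_cont {d : ℕ} {q : ℝ} (hq : 0 ≤ q) :
    Continuous (fun B : Matrix (Fin d) (Fin d) ℝ => Ph q B) := by
  unfold Ph
  refine continuous_finsetSum _ fun k _ => ?_
  refine Continuous.rpow_const ?_ (fun _ => Or.inr hq)
  have h : Continuous (fun B : Matrix (Fin d) (Fin d) ℝ => B * Bᵀ) :=
    continuous_id.matrix_mul continuous_id.matrix_transpose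
  exact h.matrix_elem k k

lemma f_cont {d : ℕ} (M : Matrix (Fin d) (Fin d) ℝ) :
    Continuous (fun B : Matrix (Fin d) (Fin d) ℝ => trace (M * (B * Bᵀ))) := by
  have h : Continuous (fun B : Matrix (Fin d) (Fin d) ℝ => B * Bᵀ) :=
    continuous_id.matrix_mul continuous_id.matrix_transpose
  exact (continuous_const.matrix_mul h).matrix_trace

lemma K_compact {d : ℕ} {q : ℝ} (hq : 0 < q) :
    IsCompact {B : Matrix (Fin d) (Fin d) ℝ | Ph q B ≤ 1} := by
  have hbig : IsCompact (Set.pi Set.univ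
      (fun _ : Fin d => Set.pi Set.univ (fun _ : Fin d => Set.Icc (-1 : ℝ) 1))) :=
    isCompact_univ_pi fun _ => isCompact_univ_pi fun _ => isCompact_Icc
  have hcl : IsClosed {B : Matrix (Fin d) (Fin d) ℝ | Ph q B ≤ 1} :=
    isClosed_le (Ph_cont hq.le) continuous_const
  refine hbig.of_isClosed_subset hcl ?_
  intro (B : Matrix (Fin d) (Fin d) ℝ) hB
  refine Set.mem_pi.mpr fun k _ => Set.mem_pi.mpr fun l _ => ?_
  have h1 : ((B * Bᵀ) k k) ^ q ≤ 1 := by
    refine le_trans ?_ hB
    exact Finset.single_le_sum (f := fun k => ((B * Bᵀ) k k) ^ q)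
      (fun k _ => Real.rpow_nonneg (diag_nonneg B k) q) (Finset.mem_univ k)
  have h2 : (B * Bᵀ) k k ≤ 1 := by
    by_contra hcon
    push Not at hcon
    have := Real.one_lt_rpow hcon hq
    linarith
  have h3 : B k l ^ 2 ≤ 1 := by
    rw [diag_eq] at h2
    refine le_trans ?_ h2
    exact Finset.single_le_sum (f := fun j => B k j ^ 2) (fun j _ => sq_nonneg _)
      (Finset.mem_univ l)
  have h4 : |B k l| ≤ 1 := by
    rw [← sq_le_one_iff_abs_le_one]
    exact h3
  exact abs_le.mp h4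

lemma trace_vec {d : ℕ} (M : Matrix (Fin d) (Fin d) ℝ) (x : Fin d → ℝ) :
    trace (M * vecMulVec x x) = qf M x := by
  unfold qf
  rw [Matrix.trace]
  refine Finset.sum_congr rfl fun k _ => ?_
  rw [Matrix.diag_apply, Matrix.mul_apply]
  refine Finset.sum_congr rfl fun l _ => ?_
  rw [vecMulVec_apply]
  ring

lemma Ph_smul {d : ℕ} {q : ℝ} (s : ℝ) (hs : 0 ≤ s) (B : Matrix (Fin d) (Fin d) ℝ) :
    Ph q (s • B) = (s ^ 2) ^ q * Ph q B := by
  unfold Ph
  rw [Finset.mul_sum]
  refine Finset.sum_congr rfl fun k _ => ?_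
  have e : ((s • B) * (s • B)ᵀ) k k = s ^ 2 * (B * Bᵀ) k k := by
    rw [diag_eq, diag_eq, Finset.mul_sum]
    refine Finset.sum_congr rfl fun j _ => ?_
    rw [Matrix.smul_apply, smul_eq_mul]
    ring
  rw [e, Real.mul_rpow (by positivity) (diag_nonneg B k)]

lemma f_smul {d : ℕ} (M : Matrix (Fin d) (Fin d) ℝ) (s : ℝ) (B : Matrix (Fin d) (Fin d) ℝ) :
    trace (M * ((s • B) * (s • B)ᵀ)) = s ^ 2 * trace (M * (B * Bᵀ)) := by
  have e : (s • B) * (s • B)ᵀ = (s ^ 2) • (B * Bᵀ) := by
    rw [transpose_smul, Matrix.smul_mul, Matrix.mul_smul, smul_smul]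
    congr 1
    ring
  rw [e, Matrix.mul_smul, trace_smul, smul_eq_mul]

end MAXx

open MAXx in
theorem t_MAX : S_MAX := by
  intro d p L M hp2 hp4 hL hM hB
  obtain ⟨q, hq⟩ : ∃ q, q = p / 2 := ⟨_, rfl⟩
  have hq1 : 1 < q := by rw [hq]; linarith
  have hq0 : 0 < q := by linarith
  have h2p : 2 / p = 1 / q := by
    rw [hq]
    field_simp
  rw [← hq, h2p] at hB
  have hB' : ∀ B : Matrix (Fin d) (Fin d) ℝ, trace (M * (B * Bᵀ)) ≤ L * (Ph q B) ^ (1 / q) := hB
  -- maximiser
  have h0 : Ph q (0 : Matrix (Fin d) (Fin d) ℝ) = 0 := by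
    unfold Ph
    refine Finset.sum_eq_zero fun k _ => ?_
    rw [zero_mul, Matrix.zero_apply, Real.zero_rpow hq0.ne']
  obtain ⟨Bs, hBs, hmax⟩ := (K_compact (d := d) hq0).exists_isMaxOn
    ⟨0, by show Ph q (0 : Matrix (Fin d) (Fin d) ℝ) ≤ 1; rw [h0]; exact zero_le_one⟩
    (f_cont M).continuousOn
  obtain ⟨lam, hlam⟩ : ∃ lam, lam = trace (M * (Bs * Bsᵀ)) := ⟨_, rfl⟩
  have hmax' : ∀ B : Matrix (Fin d) (Fin d) ℝ, Ph q B ≤ 1 → trace (M * (B * Bᵀ)) ≤ lam := by
    intro B hB1
    rw [hlam]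
    exact hmax hB1
  have hBs1 : Ph q Bs ≤ 1 := hBs
  have hlam0 : 0 ≤ lam := by
    have := hmax' 0 (by rw [h0]; exact zero_le_one)
    rw [zero_mul, mul_zero, trace_zero] at this
    exact this
  have hlamL : lam ≤ L := by
    rw [hlam]
    refine (hB' Bs).trans ?_
    have h1 : (Ph q Bs) ^ (1 / q) ≤ 1 :=
      Real.rpow_le_one (Ph_nonneg q Bs) hBs1 (by positivity)
    calc L * (Ph q Bs) ^ (1 / q) ≤ L * 1 := mul_le_mul_of_nonneg_left h1 hL
      _ = L := mul_one L
  -- scaling
  have hscal : ∀ B : Matrix (Fin d) (Fin d) ℝ, trace (M * (B * Bᵀ)) ≤ lam * (Ph q B) ^ (1 / q) := by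
    intro B
    rcases (Ph_nonneg q B).eq_or_lt with h | h
    · have h1 := hB' B
      rw [← h, Real.zero_rpow (by positivity), mul_zero] at h1
      rw [← h, Real.zero_rpow (by positivity), mul_zero]
      exact h1
    · obtain ⟨c, hc⟩ : ∃ c, c = (Ph q B) ^ (1 / q) := ⟨_, rfl⟩
      have hc0 : 0 < c := by rw [hc]; exact Real.rpow_pos_of_pos h _
      obtain ⟨s, hs⟩ : ∃ s, s = (Real.sqrt c)⁻¹ := ⟨_, rfl⟩
      have hs2 : s ^ 2 = c⁻¹ := by
        rw [hs, inv_pow, Real.sq_sqrt hc0.le]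
      have hs0 : 0 ≤ s := by rw [hs]; positivity
      have hcq : c ^ q = Ph q B := by
        rw [hc, ← Real.rpow_mul (Ph_nonneg q B), one_div, inv_mul_cancel₀ hq0.ne', Real.rpow_one]
      have h1 : Ph q (s • B) = 1 := by
        rw [Ph_smul s hs0, hs2, Real.inv_rpow hc0.le, hcq, inv_mul_cancel₀ h.ne']
      have h2 := hmax' (s • B) h1.le
      rw [f_smul, hs2] at h2
      rw [← hc]
      have h3 : c * (c⁻¹ * trace (M * (B * Bᵀ))) ≤ c * lam := mul_le_mul_of_nonneg_left h2 hc0.le
      rw [← mul_assoc, mul_inv_cancel₀ hc0.ne', one_mul] at h3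
      linarith
  -- general PSD matrices
  have hpsd : ∀ X : Matrix (Fin d) (Fin d) ℝ, X.PosSemidef →
      trace (M * X) ≤ lam * (∑ k, (X k k) ^ q) ^ (1 / q) := by
    intro X hX
    obtain ⟨B, hXB⟩ := psd_factor hX
    rw [hXB]
    exact hscal B
  have hvec : ∀ x : Fin d → ℝ, (vecMulVec x x).PosSemidef := by
    intro x
    have := posSemidef_vecMulVec_self_star x
    rwa [star_trivial] at this
  have hps : 0 < p := by linarith
  have hp2' : 0 < p - 2 := by linarith
  rcases hlam0.eq_or_lt with hl | hl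
  · refine ⟨fun _ => 0, fun _ => le_rfl, fun x => ?_, ?_⟩
    · have h1 := hpsd _ (hvec x)
      rw [trace_vec, ← hl, zero_mul] at h1
      simpa using h1
    · unfold sn
      show (∑ _k : Fin d, (0 : ℝ) ^ (p / (p - 2))) ^ ((p - 2) / p) ≤ L
      rw [Real.zero_rpow (by positivity), Finset.sum_const_zero, Real.zero_rpow (by positivity)]
      exact hL
  · -- positive maximum
    obtain ⟨a, ha⟩ : ∃ a : Fin d → ℝ, a = fun k => (Bs * Bsᵀ) k k := ⟨_, rfl⟩
    have ha0 : ∀ k, 0 ≤ a k := fun k => by rw [ha]; exact diag_nonneg Bs k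
    have hPh : Ph q Bs = 1 := by
      refine le_antisymm hBs1 ?_
      by_contra hcon
      push Not at hcon
      have h1 := hscal Bs
      rw [← hlam] at h1
      have h2 : (Ph q Bs) ^ (1 / q) < 1 :=
        Real.rpow_lt_one (Ph_nonneg q Bs) hcon (by positivity)
      have h3 : lam * (Ph q Bs) ^ (1 / q) < lam * 1 := mul_lt_mul_of_pos_left h2 hl
      linarith
    have hsum : ∑ k, a k ^ q = 1 := by rw [ha]; exact hPh
    refine ⟨fun k => lam * a k ^ (q - 1), fun k => mul_nonneg hl.le (Real.rpow_nonneg (ha0 k) _),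
      fun x => ?_, ?_⟩
    · -- the first order condition
      have hineq : ∀ t : ℝ, 0 ≤ t → lam + t * qf M x ≤ lam * (∑ k, (a k + t * x k ^ 2) ^ q) ^ (1 / q) := by
        intro t ht
        have hX : (Bs * Bsᵀ + t • vecMulVec x x).PosSemidef := by
          refine PosSemidef.add ?_ ((hvec x).smul ht)
          have := posSemidef_self_mul_conjTranspose Bs
          rwa [conjTranspose_eq_transpose_of_trivial] at this
        have h1 := hpsd _ hX
        rw [mul_add, trace_add, Matrix.mul_smul, trace_smul, trace_vec, ← hlam, smul_eq_mul] at h1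
        have e : ∀ k, (Bs * Bsᵀ + t • vecMulVec x x) k k = a k + t * x k ^ 2 := by
          intro k
          rw [Matrix.add_apply, Matrix.smul_apply, vecMulVec_apply, smul_eq_mul, ha]
          ring
        rw [Finset.sum_congr rfl (fun k _ => by rw [e k])] at h1
        exact h1
      have hd1 : ∀ k, HasDerivAt (fun t : ℝ => (a k + t * x k ^ 2) ^ q)
          (q * a k ^ (q - 1) * x k ^ 2) 0 := by
        intro k
        have h1 : HasDerivAt (fun t : ℝ => a k + t * x k ^ 2) (x k ^ 2) 0 := by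
          have := ((hasDerivAt_id (0 : ℝ)).mul_const (x k ^ 2)).const_add (a k)
          rw [one_mul] at this
          exact this
        have h2 : HasDerivAt (fun y : ℝ => y ^ q) (q * a k ^ (q - 1)) (a k + 0 * x k ^ 2) := by
          have := Real.hasDerivAt_rpow_const (x := a k + 0 * x k ^ 2) (p := q) (Or.inr hq1.le)
          rw [zero_mul, add_zero] at this ⊢
          exact this
        exact h2.comp (0 : ℝ) h1
      have hd2 : HasDerivAt (fun t : ℝ => ∑ k, (a k + t * x k ^ 2) ^ q)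
          (∑ k, q * a k ^ (q - 1) * x k ^ 2) 0 := by
        have := HasDerivAt.fun_sum (u := Finset.univ) (fun k _ => hd1 k)
        exact this
      have hv0 : ∑ k, (a k + (0 : ℝ) * x k ^ 2) ^ q = 1 := by
        rw [← hsum]
        refine Finset.sum_congr rfl fun k _ => ?_
        rw [zero_mul, add_zero]
      have hd3 : HasDerivAt (fun t : ℝ => (∑ k, (a k + t * x k ^ 2) ^ q) ^ (1 / q))
          ((1 / q) * (∑ k, q * a k ^ (q - 1) * x k ^ 2)) 0 := by
        have h2 : HasDerivAt (fun y : ℝ => y ^ (1 / q)) (1 / q)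
            (∑ k, (a k + (0 : ℝ) * x k ^ 2) ^ q) := by
          rw [hv0]
          have := Real.hasDerivAt_rpow_const (x := (1 : ℝ)) (p := 1 / q) (Or.inl one_ne_zero)
          rw [Real.one_rpow, mul_one] at this
          exact this
        exact h2.comp (0 : ℝ) hd2
      have hd4 : HasDerivAt (fun t : ℝ => lam * (∑ k, (a k + t * x k ^ 2) ^ q) ^ (1 / q) -
          (lam + t * qf M x)) (lam * ((1 / q) * (∑ k, q * a k ^ (q - 1) * x k ^ 2)) - qf M x) 0 := by
        have h5 : HasDerivAt (fun t : ℝ => lam + t * qf M x) (qf M x) 0 := by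
          have := ((hasDerivAt_id (0 : ℝ)).mul_const (qf M x)).const_add lam
          rw [one_mul] at this
          exact this
        exact (hd3.const_mul lam).sub h5
      have hlim := hd4.tendsto_slope_zero_right
      have hnn : 0 ≤ lam * ((1 / q) * (∑ k, q * a k ^ (q - 1) * x k ^ 2)) - qf M x := by
        refine ge_of_tendsto hlim ?_
        filter_upwards [self_mem_nhdsWithin] with t ht
        have ht0 : (0 : ℝ) < t := ht
        have h6 := hineq t ht0.le
        have h7 : lam * (∑ k, (a k + (0 : ℝ) * x k ^ 2) ^ q) ^ (1 / q) - (lam + 0 * qf M x) = 0 := by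
          rw [hv0, Real.one_rpow]
          ring
        rw [h7, sub_zero, zero_add, smul_eq_mul]
        exact mul_nonneg (inv_pos.mpr ht0).le (by linarith)
      have e : lam * ((1 / q) * (∑ k, q * a k ^ (q - 1) * x k ^ 2)) =
          ∑ k, lam * a k ^ (q - 1) * x k ^ 2 := by
        rw [Finset.mul_sum, Finset.mul_sum]
        refine Finset.sum_congr rfl fun k _ => ?_
        field_simp
      rw [e] at hnn
      linarith
    · -- the norm of the weight
      unfold sn
      have e : ∀ k, (lam * a k ^ (q - 1)) ^ (p / (p - 2)) = lam ^ (p / (p - 2)) * a k ^ q := by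
        intro k
        rw [Real.mul_rpow hl.le (Real.rpow_nonneg (ha0 k) _), ← Real.rpow_mul (ha0 k)]
        congr 2
        rw [hq]
        field_simp
      rw [Finset.sum_congr rfl (fun k _ => e k), ← Finset.mul_sum, hsum, mul_one,
        ← Real.rpow_mul hl.le]
      have e2 : p / (p - 2) * ((p - 2) / p) = 1 := by
        field_simp
      rw [e2, Real.rpow_one]
      exact hlamL

end Pool.Agent.H507R3.GI
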