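import Mathlib
import Pool.Agent.H507R3.GI.Defs

/-! Task MOM: moment recursion. -/

namespace Pool.Agent.H507R3.GI

open scoped BigOperators
open MeasureTheory ProbabilityTheory Matrix

namespace MOM

theorem sg_not (b : Bool) : sg (!b) = -sg b := by cases b <;> simp [sg]

theorem sg_sq (b : Bool) : sg b * sg b = 1 := by cases b <;> simp [sg]

/-- flip the sign `i` -/
def fl {n : ℕ} (i : Fin n) (e : Fin n → Bool) : Fin n → Bool := Function.update e i (!e i)

theorem fl_fl {n : ℕ} (i : Fin n) (e : Fin n → Bool) : fl i (fl i e) = e := by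
  funext j
  unfold fl
  by_cases h : j = i
  · subst h; simp
  · simp [Function.update_of_ne h]

/-- the flip as a permutation -/
def flE {n : ℕ} (i : Fin n) : Equiv.Perm (Fin n → Bool) :=
  ⟨fl i, fl i, fl_fl i, fl_fl i⟩

theorem sum_fl {n : ℕ} (i : Fin n) (F : (Fin n → Bool) → ℝ) : ∑ e, F (fl i e) = ∑ e, F e :=
  Equiv.sum_comp (flE i) F

variable {d n : ℕ}

theorem rx_split (A : Fin n → Matrix (Fin d) (Fin d) ℝ) (e : Fin n → Bool) (i : Fin n) :
    RX A e = (∑ j ∈ Finset.univ.erase i, sg (e j) • A j) + sg (e i) • A i := by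
  unfold RX
  rw [Finset.sum_erase_add _ _ (Finset.mem_univ i)]

theorem rx_flip (A : Fin n → Matrix (Fin d) (Fin d) ℝ) (e : Fin n → Bool) (i : Fin n) :
    RX A (fl i e) = (∑ j ∈ Finset.univ.erase i, sg (e j) • A j) - sg (e i) • A i := by
  rw [rx_split A (fl i e) i]
  have h1 : ∑ j ∈ Finset.univ.erase i, sg (fl i e j) • A j =
      ∑ j ∈ Finset.univ.erase i, sg (e j) • A j := by
    refine Finset.sum_congr rfl fun j hj => ?_
    have : j ≠ i := Finset.ne_of_mem_erase hj
    unfold fl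
    rw [Function.update_of_ne this]
  have h2 : fl i e i = !e i := by
    unfold fl
    simp
  rw [h1, h2, sg_not, neg_smul, sub_eq_add_neg]

theorem symm_sum {A : Fin n → Matrix (Fin d) (Fin d) ℝ} (hA : ∀ i, (A i).IsSymm)
    (s : Finset (Fin n)) (c : Fin n → ℝ) : (∑ j ∈ s, c j • A j).IsSymm := by
  unfold Matrix.IsSymm
  rw [Matrix.transpose_sum]
  refine Finset.sum_congr rfl fun j _ => ?_
  rw [Matrix.transpose_smul, (hA j).eq]

theorem symm_RX {A : Fin n → Matrix (Fin d) (Fin d) ℝ} (hA : ∀ i, (A i).IsSymm)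
    (e : Fin n → Bool) : (RX A e).IsSymm := symm_sum hA _ _

theorem one_coord (hDIF : ∀ (d : ℕ) (A S : Matrix (Fin d) (Fin d) ℝ) (m : ℕ),
      A.IsSymm → S.IsSymm → Even m →
      trace (A * (S + A) ^ (m + 1)) - trace (A * (S - A) ^ (m + 1)) ≤
        2 * (m + 1) * (trace (A * (S + A) ^ m * A) + trace (A * (S - A) ^ m * A)))
    {A : Fin n → Matrix (Fin d) (Fin d) ℝ} (hA : ∀ i, (A i).IsSymm) (m : ℕ) (hm : Even m)
    (i : Fin n) (e : Fin n → Bool) :
    sg (e i) * trace (A i * RX A e ^ (m + 1)) - sg (e i) * trace (A i * RX A (fl i e) ^ (m + 1)) ≤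
      2 * (m + 1) * (trace (A i * RX A e ^ m * A i) + trace (A i * RX A (fl i e) ^ m * A i)) := by
  have h := hDIF d (sg (e i) • A i) (∑ j ∈ Finset.univ.erase i, sg (e j) • A j) m
    (by unfold Matrix.IsSymm; rw [Matrix.transpose_smul, (hA i).eq]) (symm_sum hA _ _) hm
  rw [← rx_split A e i, ← rx_flip A e i] at h
  have e1 : ∀ Y : Matrix (Fin d) (Fin d) ℝ, trace ((sg (e i) • A i) * Y) =
      sg (e i) * trace (A i * Y) := by
    intro Y
    rw [smul_mul_assoc, Matrix.trace_smul, smul_eq_mul]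
  have e2 : ∀ Y : Matrix (Fin d) (Fin d) ℝ, trace ((sg (e i) • A i) * Y * (sg (e i) • A i)) =
      trace (A i * Y * A i) := by
    intro Y
    rw [smul_mul_assoc, smul_mul_assoc, mul_smul_comm, smul_smul, sg_sq, one_smul]
  rw [e1, e1, e2, e2] at h
  exact h

theorem coord_sum (hDIF : ∀ (d : ℕ) (A S : Matrix (Fin d) (Fin d) ℝ) (m : ℕ),
      A.IsSymm → S.IsSymm → Even m →
      trace (A * (S + A) ^ (m + 1)) - trace (A * (S - A) ^ (m + 1)) ≤
        2 * (m + 1) * (trace (A * (S + A) ^ m * A) + trace (A * (S - A) ^ m * A)))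
    {A : Fin n → Matrix (Fin d) (Fin d) ℝ} (hA : ∀ i, (A i).IsSymm) (m : ℕ) (hm : Even m)
    (i : Fin n) :
    ∑ e, sg (e i) * trace (A i * RX A e ^ (m + 1)) ≤
      2 * (m + 1) * ∑ e, trace (A i * RX A e ^ m * A i) := by
  have h1 : ∑ e, sg (e i) * trace (A i * RX A (fl i e) ^ (m + 1)) =
      -∑ e, sg (e i) * trace (A i * RX A e ^ (m + 1)) := by
    rw [← sum_fl i (fun e => sg (e i) * trace (A i * RX A (fl i e) ^ (m + 1))),
      ← Finset.sum_neg_distrib]
    refine Finset.sum_congr rfl fun e _ => ?_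
    have h2 : fl i e i = !e i := by
      unfold fl
      simp
    rw [h2, sg_not, fl_fl]
    ring
  have h2 : ∑ e, trace (A i * RX A (fl i e) ^ m * A i) = ∑ e, trace (A i * RX A e ^ m * A i) :=
    sum_fl i (fun e => trace (A i * RX A e ^ m * A i))
  have h3 := Finset.sum_le_sum (s := Finset.univ) fun e _ => one_coord hDIF hA m hm i e
  rw [Finset.sum_sub_distrib, h1, ← Finset.mul_sum, Finset.sum_add_distrib, h2] at h3
  linarith

theorem trace_AZ {A Z : Matrix (Fin d) (Fin d) ℝ} (hA : A.IsSymm) (hZ : Z.IsSymm) :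
    trace (A * (Z * Z) * A) = ∑ l, ∑ k, ((A *ᵥ (fun j => Z j l)) k) ^ 2 := by
  have h1 : A * (Z * Z) * A = (A * Z) * (A * Z)ᵀ := by
    rw [Matrix.transpose_mul, hA.eq, hZ.eq]
    simp only [Matrix.mul_assoc]
  rw [h1]
  unfold trace
  rw [Finset.sum_comm]
  refine Finset.sum_congr rfl fun k _ => ?_
  rw [Matrix.diag_apply, Matrix.mul_apply]
  refine Finset.sum_congr rfl fun l _ => ?_
  rw [Matrix.transpose_apply, ← sq]
  rfl

theorem trace_Z {Z : Matrix (Fin d) (Fin d) ℝ} (hZ : Z.IsSymm) :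
    trace (Z * Z) = ∑ l, ∑ k, (Z k l) ^ 2 := by
  unfold trace
  refine Finset.sum_congr rfl fun k _ => ?_
  rw [Matrix.diag_apply, Matrix.mul_apply]
  refine Finset.sum_congr rfl fun l _ => ?_
  rw [sq]
  congr 1
  have := congrFun (congrFun hZ.eq l) k
  rw [Matrix.transpose_apply] at this
  exact this

end MOM

open MOM

theorem t_MOM : S_MOM := by
  intro _hTRI hDIF' d n A σ hA hσ hsum
  have hDIF := hDIF' _hTRI
  -- the recursion
  have hrec : ∀ q : ℕ, ∑ e : Fin n → Bool, trace (RX A e ^ (2 * (q + 1))) ≤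
      2 * (2 * q + 1) * σ * ∑ e : Fin n → Bool, trace (RX A e ^ (2 * q)) := by
    intro q
    have h1 : ∑ e : Fin n → Bool, trace (RX A e ^ (2 * (q + 1))) =
        ∑ i, ∑ e : Fin n → Bool, sg (e i) * trace (A i * RX A e ^ (2 * q + 1)) := by
      rw [Finset.sum_comm]
      refine Finset.sum_congr rfl fun e _ => ?_
      rw [show 2 * (q + 1) = 2 * q + 1 + 1 by ring, pow_succ' (RX A e) (2 * q + 1)]
      conv_lhs => enter [1, 1]; unfold RX
      rw [Finset.sum_mul, Matrix.trace_sum]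
      refine Finset.sum_congr rfl fun i _ => ?_
      rw [smul_mul_assoc, Matrix.trace_smul, smul_eq_mul]
    have h2 : ∀ e : Fin n → Bool, ∑ i, trace (A i * RX A e ^ (2 * q) * A i) ≤
        σ * trace (RX A e ^ (2 * q)) := by
      intro e
      have hZ : (RX A e ^ q).IsSymm := by
        unfold Matrix.IsSymm
        rw [Matrix.transpose_pow, (symm_RX hA e).eq]
      have e1 : RX A e ^ (2 * q) = RX A e ^ q * RX A e ^ q := by
        rw [← pow_add, two_mul]
      rw [e1, trace_Z hZ, Finset.mul_sum]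
      calc ∑ i, trace (A i * (RX A e ^ q * RX A e ^ q) * A i)
          = ∑ i, ∑ l, ∑ k, ((A i *ᵥ (fun j => (RX A e ^ q) j l)) k) ^ 2 :=
            Finset.sum_congr rfl fun i _ => trace_AZ (hA i) hZ
        _ = ∑ l, ∑ i, ∑ k, ((A i *ᵥ (fun j => (RX A e ^ q) j l)) k) ^ 2 := Finset.sum_comm
        _ ≤ ∑ l, σ * ∑ k, (RX A e ^ q) k l ^ 2 :=
            Finset.sum_le_sum fun l _ => hsum _
    rw [h1]
    calc ∑ i, ∑ e : Fin n → Bool, sg (e i) * trace (A i * RX A e ^ (2 * q + 1))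
        ≤ ∑ i, 2 * (((2 * q : ℕ) : ℝ) + 1) * ∑ e, trace (A i * RX A e ^ (2 * q) * A i) :=
          Finset.sum_le_sum fun i _ => coord_sum hDIF hA (2 * q) (even_two_mul q) i
      _ = 2 * (2 * q + 1) * ∑ e : Fin n → Bool, ∑ i, trace (A i * RX A e ^ (2 * q) * A i) := by
          rw [← Finset.mul_sum, Finset.sum_comm]
          push_cast
          ring
      _ ≤ 2 * (2 * q + 1) * ∑ e : Fin n → Bool, σ * trace (RX A e ^ (2 * q)) := by
          refine mul_le_mul_of_nonneg_left (Finset.sum_le_sum fun e _ => h2 e) (by positivity)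
      _ = 2 * (2 * q + 1) * σ * ∑ e : Fin n → Bool, trace (RX A e ^ (2 * q)) := by
          rw [← Finset.mul_sum]
          ring
  intro q
  induction q with
  | zero =>
    simp
  | succ q ih =>
    have hq : (0 : ℝ) ≤ q := Nat.cast_nonneg q
    calc ∑ e : Fin n → Bool, trace (RX A e ^ (2 * (q + 1)))
        ≤ 2 * (2 * q + 1) * σ * ∑ e : Fin n → Bool, trace (RX A e ^ (2 * q)) := hrec q
      _ ≤ 2 * (2 * q + 1) * σ * (2 ^ n * ((4 * q * σ) ^ q * d)) :=
          mul_le_mul_of_nonneg_left ih (by positivity)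
      _ ≤ (4 * ((q + 1 : ℕ) : ℝ) * σ) * (2 ^ n * ((4 * ((q + 1 : ℕ) : ℝ) * σ) ^ q * d)) := by
          push_cast
          have h3 : 2 * (2 * (q : ℝ) + 1) * σ ≤ 4 * ((q : ℝ) + 1) * σ :=
            mul_le_mul_of_nonneg_right (by linarith) hσ
          have h4 : (4 * (q : ℝ) * σ) ^ q ≤ (4 * ((q : ℝ) + 1) * σ) ^ q := by
            refine pow_le_pow_left₀ (by positivity) ?_ q
            exact mul_le_mul_of_nonneg_right (by linarith) hσ
          have h5 : 2 ^ n * ((4 * (q : ℝ) * σ) ^ q * d) ≤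
              2 ^ n * ((4 * ((q : ℝ) + 1) * σ) ^ q * d) := by
            gcongr
          exact mul_le_mul h3 h5 (by positivity) (by positivity)
      _ = 2 ^ n * ((4 * ((q + 1 : ℕ) : ℝ) * σ) ^ (q + 1) * d) := by
          rw [pow_succ]
          ring

end Pool.Agent.H507R3.GI
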