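import Mathlib
import Pool.Agent.H507R3.GI.Defs

namespace Pool.Agent.H507R3.GI

open scoped BigOperators

namespace NOR

variable {d : ℕ}

theorem pn_nonneg (p : ℝ) (x : Fin d → ℝ) : 0 ≤ pn p x :=
  Real.rpow_nonneg (Finset.sum_nonneg fun _ _ => Real.rpow_nonneg (abs_nonneg _) _) _

theorem abs_le_pn {p : ℝ} (hp : 2 < p) (x : Fin d → ℝ) (k : Fin d) : |x k| ≤ pn p x := by
  have h1 : |x k| ^ p ≤ ∑ k, |x k| ^ p :=
    Finset.single_le_sum (f := fun k => |x k| ^ p)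
      (fun _ _ => Real.rpow_nonneg (abs_nonneg _) _) (Finset.mem_univ k)
  have h2 := Real.rpow_le_rpow (Real.rpow_nonneg (abs_nonneg _) _) h1
    (by positivity : (0 : ℝ) ≤ 1 / p)
  rw [← Real.rpow_mul (abs_nonneg _), mul_one_div_cancel (by positivity), Real.rpow_one] at h2
  exact h2

theorem pn_smul {p : ℝ} (hp : 2 < p) {c : ℝ} (hc : 0 ≤ c) (x : Fin d → ℝ) :
    pn p (fun k => c * x k) = c * pn p x := by
  unfold pn
  have h1 : ∑ k, |c * x k| ^ p = c ^ p * ∑ k, |x k| ^ p := by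
    rw [Finset.mul_sum]
    refine Finset.sum_congr rfl fun k _ => ?_
    rw [abs_mul, abs_of_nonneg hc, Real.mul_rpow hc (abs_nonneg _)]
  rw [h1, Real.mul_rpow (Real.rpow_nonneg hc _)
    (Finset.sum_nonneg fun _ _ => Real.rpow_nonneg (abs_nonneg _) _), ← Real.rpow_mul hc,
    mul_one_div_cancel (by positivity), Real.rpow_one]

theorem qf_smul (M : Matrix (Fin d) (Fin d) ℝ) (c : ℝ) (x : Fin d → ℝ) :
    qf M (fun k => c * x k) = c ^ 2 * qf M x := by
  unfold qf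
  rw [Finset.mul_sum]
  refine Finset.sum_congr rfl fun k _ => ?_
  rw [Finset.mul_sum]
  refine Finset.sum_congr rfl fun l _ => ?_
  ring

theorem qf_le {p : ℝ} (hp : 2 < p) (M : Matrix (Fin d) (Fin d) ℝ) (x : Fin d → ℝ) :
    |qf M x| ≤ (∑ k, ∑ l, |M k l|) * pn p x ^ 2 := by
  unfold qf
  rw [Finset.sum_mul]
  refine (Finset.abs_sum_le_sum_abs _ _).trans (Finset.sum_le_sum fun k _ => ?_)
  rw [Finset.sum_mul]
  refine (Finset.abs_sum_le_sum_abs _ _).trans (Finset.sum_le_sum fun l _ => ?_)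
  rw [abs_mul, abs_mul, mul_assoc, sq]
  exact mul_le_mul_of_nonneg_left (mul_le_mul (abs_le_pn hp x k) (abs_le_pn hp x l)
    (abs_nonneg _) (pn_nonneg p x)) (abs_nonneg _)

end NOR

open NOR in
theorem t_NOR : S_NOR := by
  intro d p M hp
  have hB0 : 0 ≤ ∑ k, ∑ l, |M k l| :=
    Finset.sum_nonneg fun _ _ => Finset.sum_nonneg fun _ _ => abs_nonneg _
  have hbdd : BddAbove {a : ℝ | ∃ x : Fin d → ℝ, pn p x ≤ 1 ∧ a = |qf M x|} := by
    refine ⟨∑ k, ∑ l, |M k l|, ?_⟩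
    rintro _ ⟨x, hx, rfl⟩
    refine (qf_le hp M x).trans ?_
    have h1 : pn p x ^ 2 ≤ 1 := pow_le_one₀ (pn_nonneg p x) hx
    nlinarith
  have hz : pn p (fun _ : Fin d => (0 : ℝ)) = 0 := by
    have := pn_smul (d := d) hp le_rfl (fun _ => (0 : ℝ))
    simpa using this
  have hqz : qf M (fun _ : Fin d => (0 : ℝ)) = 0 := by
    unfold qf
    simp
  have hmem0 : (0 : ℝ) ∈ {a : ℝ | ∃ x : Fin d → ℝ, pn p x ≤ 1 ∧ a = |qf M x|} :=
    ⟨fun _ => 0, by rw [hz]; exact zero_le_one, by rw [hqz, abs_zero]⟩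
  have h0 : 0 ≤ injN p M := le_csSup hbdd hmem0
  refine ⟨h0, ?_, ?_⟩
  · intro x
    rcases (pn_nonneg p x).eq_or_lt with h | h
    · have h1 := qf_le hp M x
      rw [← h] at h1 ⊢
      simpa using h1
    · set s := pn p x with hs
      have h1 : pn p (fun k => s⁻¹ * x k) = 1 := by
        rw [pn_smul hp (inv_nonneg.mpr h.le), ← hs, inv_mul_cancel₀ h.ne']
      have h2 : |qf M (fun k => s⁻¹ * x k)| ≤ injN p M :=
        le_csSup hbdd ⟨_, h1.le, rfl⟩
      rw [qf_smul, abs_mul, abs_of_nonneg (by positivity)] at h2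
      have h3 : |qf M x| = s ^ 2 * ((s⁻¹) ^ 2 * |qf M x|) := by
        field_simp
      rw [h3, mul_comm (injN p M)]
      exact mul_le_mul_of_nonneg_left h2 (by positivity)
  · intro N hN h
    refine csSup_le ⟨0, hmem0⟩ ?_
    rintro _ ⟨x, hx, rfl⟩
    refine (h x).trans ?_
    have h1 : pn p x ^ 2 ≤ 1 := pow_le_one₀ (pn_nonneg p x) hx
    nlinarith

end Pool.Agent.H507R3.GI
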