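import Mathlib
import Pool.Agent.H507R3.GI.Defs

/-!
# OPN: quadratic forms are bounded by trace powers (helper398)
-/

namespace Pool.Agent.H507R3.GI

open scoped BigOperators
open MeasureTheory ProbabilityTheory Matrix

theorem opn_qf {d : ℕ} (X : Matrix (Fin d) (Fin d) ℝ) (x : Fin d → ℝ) :
    qf X x = x ⬝ᵥ (X *ᵥ x) := by
  unfold qf
  simp only [dotProduct, mulVec, Finset.mul_sum]
  refine Finset.sum_congr rfl (fun k _ => Finset.sum_congr rfl (fun l _ => ?_))
  ring

theorem t_OPN : S_OPN := by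
  intro d q X x hX hq
  have hH : X.IsHermitian := by
    unfold Matrix.IsHermitian
    rw [conjTranspose_eq_transpose_of_trivial]
    exact hX
  set U : Matrix (Fin d) (Fin d) ℝ := (hH.eigenvectorUnitary : Matrix (Fin d) (Fin d) ℝ) with hU
  set D : Matrix (Fin d) (Fin d) ℝ := diagonal hH.eigenvalues with hD
  have hUU : U * Uᵀ = 1 := by
    have := Unitary.coe_mul_star_self hH.eigenvectorUnitary
    rw [Unitary.coe_star, star_eq_conjTranspose, conjTranspose_eq_transpose_of_trivial] at this
    exact this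
  have hUU' : Uᵀ * U = 1 := by
    have := Unitary.coe_star_mul_self hH.eigenvectorUnitary
    rw [star_eq_conjTranspose, conjTranspose_eq_transpose_of_trivial] at this
    exact this
  have hXU : X = U * D * Uᵀ := by
    have h := hH.spectral_theorem
    rw [Unitary.conjStarAlgAut_apply, star_eq_conjTranspose,
      conjTranspose_eq_transpose_of_trivial] at h
    exact h
  have hpow : ∀ k : ℕ, X ^ k = U * D ^ k * Uᵀ := by
    intro k
    induction k with
    | zero => rw [pow_zero, pow_zero, mul_one, hUU]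
    | succ k ih =>
      rw [pow_succ, ih]
      conv_lhs => rw [hXU]
      rw [pow_succ]
      calc U * D ^ k * Uᵀ * (U * D * Uᵀ) = U * D ^ k * (Uᵀ * U) * D * Uᵀ := by
            simp only [Matrix.mul_assoc]
        _ = U * (D ^ k * D) * Uᵀ := by rw [hUU', mul_one]; simp only [Matrix.mul_assoc]
  have htr : trace (X ^ (2 * q)) = ∑ i, hH.eigenvalues i ^ (2 * q) := by
    rw [hpow, trace_mul_cycle, hUU', one_mul, hD, diagonal_pow, trace_diagonal]
    rfl
  have hnn : ∀ i, 0 ≤ hH.eigenvalues i ^ (2 * q) := fun i => by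
    rw [pow_mul]; positivity
  have hT0 : 0 ≤ trace (X ^ (2 * q)) := by
    rw [htr]; exact Finset.sum_nonneg (fun i _ => hnn i)
  refine ⟨hT0, ?_⟩
  set T := trace (X ^ (2 * q)) with hT
  have hlam : ∀ i, |hH.eigenvalues i| ≤ T ^ (1 / (2 * q : ℝ)) := by
    intro i
    have h1 : |hH.eigenvalues i| ^ (2 * q) ≤ T := by
      rw [pow_mul, sq_abs, ← pow_mul, htr]
      exact Finset.single_le_sum (f := fun i => hH.eigenvalues i ^ (2 * q)) (fun i _ => hnn i)
        (Finset.mem_univ i)
    have h2 : |hH.eigenvalues i| = (|hH.eigenvalues i| ^ (2 * q)) ^ (1 / (2 * q : ℝ)) := by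
      have h3 := Real.pow_rpow_inv_natCast (abs_nonneg (hH.eigenvalues i)) (n := 2 * q) (by omega)
      rw [one_div]
      push_cast at h3
      exact h3.symm
    rw [h2]
    exact Real.rpow_le_rpow (by positivity) h1 (by positivity)
  set y : Fin d → ℝ := Uᵀ *ᵥ x with hy
  have hq1 : qf X x = ∑ i, hH.eigenvalues i * y i ^ 2 := by
    rw [opn_qf]
    conv_lhs => rw [hXU]
    rw [← mulVec_mulVec, ← mulVec_mulVec, ← hy, dotProduct_mulVec]
    have e : x ᵥ* U = y := by rw [hy, mulVec_transpose]
    rw [e, hD]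
    simp only [dotProduct, mulVec_diagonal]
    exact Finset.sum_congr rfl (fun i _ => by ring)
  have hq2 : ∑ k, x k ^ 2 = ∑ i, y i ^ 2 := by
    have h1 : y ⬝ᵥ y = x ⬝ᵥ x := by
      conv_lhs => rw [hy]
      rw [dotProduct_mulVec, vecMul_transpose, mulVec_mulVec, hUU, one_mulVec]
    simp only [dotProduct] at h1
    simp only [pow_two]
    exact h1.symm
  rw [hq1, hq2, Finset.mul_sum]
  calc |∑ i, hH.eigenvalues i * y i ^ 2| ≤ ∑ i, |hH.eigenvalues i * y i ^ 2| :=
        Finset.abs_sum_le_sum_abs _ _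
    _ ≤ ∑ i, T ^ (1 / (2 * q : ℝ)) * y i ^ 2 := by
        apply Finset.sum_le_sum
        intro i _
        rw [abs_mul, abs_of_nonneg (sq_nonneg (y i))]
        exact mul_le_mul_of_nonneg_right (hlam i) (sq_nonneg _)

end Pool.Agent.H507R3.GI
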