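import Mathlib
import Pool.Agent.H507R3.GI.Defs

/-!
# RND: Rademacher rounding
-/

namespace Pool.Agent.H507R3.GI

open scoped BigOperators
open MeasureTheory ProbabilityTheory Matrix

namespace RNDx

theorem sg_not (b : Bool) : sg (!b) = - sg b := by
  cases b <;> simp [sg]

theorem sg_sq (b : Bool) : sg b * sg b = 1 := by
  cases b <;> simp [sg]

theorem ortho (d : ℕ) (i j : Fin d) :
    ∑ e : Fin d → Bool, sg (e i) * sg (e j) = if i = j then (2 : ℝ) ^ d else 0 := by
  classical
  by_cases h : i = j
  · subst h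
    rw [if_pos rfl]
    have h1 : ∀ e : Fin d → Bool, sg (e i) * sg (e i) = 1 := fun e => sg_sq _
    rw [Finset.sum_congr rfl fun e _ => h1 e]
    simp
  · rw [if_neg h]
    refine Finset.sum_involution (fun e _ => Function.update e i (!(e i))) ?_ ?_ ?_ ?_
    · intro e _
      rw [Function.update_self, Function.update_of_ne (Ne.symm h), sg_not]
      ring
    · intro e _ _ he
      have h2 := congrFun he i
      rw [Function.update_self] at h2
      cases h3 : e i <;> simp [h3] at h2
    · intro e _
      exact Finset.mem_univ _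
    · intro e _
      funext k
      by_cases hk : k = i
      · subst hk
        simp
      · simp [Function.update_of_ne hk]

end RNDx

theorem t_RND : S_RND := by
  intro hKH d p N M B hp hp4 hN hM
  classical
  have hp0 : 0 < p := by linarith
  set x : (Fin d → Bool) → Fin d → ℝ := fun e k => ∑ j, B k j * sg (e j) with hx
  have h2d : (0 : ℝ) < 2 ^ d := by positivity
  -- step 1
  have h1 : ∑ e, qf M (x e) = 2 ^ d * Matrix.trace (M * (B * Bᵀ)) := by
    have e1 : ∀ k l : Fin d, ∑ e, x e k * x e l = 2 ^ d * ∑ i, B k i * B l i := by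
      intro k l
      calc ∑ e, x e k * x e l = ∑ e : Fin d → Bool, ∑ i, ∑ j, (B k i * B l j) *
            (sg (e i) * sg (e j)) := by
            refine Finset.sum_congr rfl fun e _ => ?_
            rw [hx]
            simp only
            rw [Finset.sum_mul_sum]
            refine Finset.sum_congr rfl fun i _ => Finset.sum_congr rfl fun j _ => ?_
            ring
        _ = ∑ i, ∑ j, ∑ e : Fin d → Bool, (B k i * B l j) * (sg (e i) * sg (e j)) := by
            rw [Finset.sum_comm]
            refine Finset.sum_congr rfl fun i _ => ?_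
            rw [Finset.sum_comm]
        _ = ∑ i, ∑ j, (B k i * B l j) * (if i = j then (2 : ℝ) ^ d else 0) := by
            refine Finset.sum_congr rfl fun i _ => Finset.sum_congr rfl fun j _ => ?_
            rw [← Finset.mul_sum, RNDx.ortho]
        _ = ∑ i, (B k i * B l i) * (2 : ℝ) ^ d := by
            refine Finset.sum_congr rfl fun i _ => ?_
            simp
        _ = 2 ^ d * ∑ i, B k i * B l i := by
            rw [← Finset.sum_mul, mul_comm]
    calc ∑ e, qf M (x e) = ∑ e, ∑ k, ∑ l, M k l * (x e k * x e l) := by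
          refine Finset.sum_congr rfl fun e _ => ?_
          unfold qf
          refine Finset.sum_congr rfl fun k _ => Finset.sum_congr rfl fun l _ => ?_
          ring
      _ = ∑ k, ∑ l, M k l * ∑ e, (x e k * x e l) := by
          rw [Finset.sum_comm]
          refine Finset.sum_congr rfl fun k _ => ?_
          rw [Finset.sum_comm]
          refine Finset.sum_congr rfl fun l _ => ?_
          rw [Finset.mul_sum]
      _ = ∑ k, ∑ l, M k l * (2 ^ d * ∑ i, B k i * B l i) := by
          refine Finset.sum_congr rfl fun k _ => Finset.sum_congr rfl fun l _ => ?_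
          rw [e1]
      _ = 2 ^ d * Matrix.trace (M * (B * Bᵀ)) := by
          rw [Matrix.trace, Finset.mul_sum]
          refine Finset.sum_congr rfl fun k _ => ?_
          rw [Matrix.diag_apply, Matrix.mul_apply, Finset.mul_sum]
          refine Finset.sum_congr rfl fun l _ => ?_
          rw [Matrix.mul_apply]
          simp only [Matrix.transpose_apply]
          have e2 : ∑ i, B k i * B l i = ∑ i, B l i * B k i :=
            Finset.sum_congr rfl fun i _ => mul_comm _ _
          rw [e2]
          ring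
  set S : (Fin d → Bool) → ℝ := fun e => ∑ k, |x e k| ^ p with hS
  have hS0 : ∀ e, 0 ≤ S e := fun e => Finset.sum_nonneg fun k _ => Real.rpow_nonneg (abs_nonneg _) _
  have hpn : ∀ e, pn p (x e) ^ 2 = S e ^ (2 / p) := by
    intro e
    unfold pn
    rw [← Real.rpow_natCast, ← Real.rpow_mul (hS0 e)]
    congr 1
    push_cast
    ring
  have hT0 : ∀ k, 0 ≤ (B * Bᵀ) k k := by
    intro k
    rw [Matrix.mul_apply]
    exact Finset.sum_nonneg fun i _ => by
      rw [Matrix.transpose_apply]
      exact mul_self_nonneg _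
  set T : ℝ := ∑ k, ((B * Bᵀ) k k) ^ (p / 2) with hT
  have hTn : 0 ≤ T := Finset.sum_nonneg fun k _ => Real.rpow_nonneg (hT0 k) _
  -- step 3
  have h3 : ∑ e, S e ≤ 2 ^ d * (3 ^ (p / 4) * T) := by
    rw [hS]
    simp only
    rw [Finset.sum_comm, hT, Finset.mul_sum, Finset.mul_sum]
    refine Finset.sum_le_sum fun k _ => ?_
    have e3 : (B * Bᵀ) k k = ∑ i, B k i ^ 2 := by
      rw [Matrix.mul_apply]
      refine Finset.sum_congr rfl fun i _ => ?_
      rw [Matrix.transpose_apply]
      ring
    rw [e3]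
    exact hKH d p (fun i => B k i) hp hp4
  -- power mean
  have h4 : ∑ e, S e ^ (2 / p) ≤ 2 ^ d * (Real.sqrt 3 * T ^ (2 / p)) := by
    have hw : ∑ _e : Fin d → Bool, ((2 : ℝ) ^ d)⁻¹ = 1 := by
      simp
    have hm := Real.rpow_arith_mean_le_arith_mean_rpow (Finset.univ : Finset (Fin d → Bool))
      (fun _ => ((2 : ℝ) ^ d)⁻¹) (fun e => S e ^ (2 / p)) (fun _ _ => by positivity) hw
      (fun e _ => Real.rpow_nonneg (hS0 e) _) (p := p / 2) (by linarith)
    have e4 : ∀ e, (S e ^ (2 / p)) ^ (p / 2) = S e := by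
      intro e
      rw [← Real.rpow_mul (hS0 e)]
      have : 2 / p * (p / 2) = 1 := by field_simp
      rw [this, Real.rpow_one]
    simp only [e4] at hm
    rw [← Finset.mul_sum, ← Finset.mul_sum] at hm
    have hA0 : 0 ≤ ((2 : ℝ) ^ d)⁻¹ * ∑ e, S e ^ (2 / p) :=
      mul_nonneg (by positivity) (Finset.sum_nonneg fun e _ => Real.rpow_nonneg (hS0 e) _)
    have h5 : (((2 : ℝ) ^ d)⁻¹ * ∑ e, S e ^ (2 / p)) ^ (p / 2) ≤ 3 ^ (p / 4) * T := by
      refine hm.trans ?_
      rw [inv_mul_le_iff₀ h2d]
      exact h3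
    have h6 := Real.rpow_le_rpow (Real.rpow_nonneg hA0 _) h5 (z := 2 / p) (by positivity)
    rw [← Real.rpow_mul hA0] at h6
    have e5 : p / 2 * (2 / p) = 1 := by field_simp
    rw [e5, Real.rpow_one, Real.mul_rpow (by positivity) hTn, ← Real.rpow_mul (by norm_num)] at h6
    have e6 : p / 4 * (2 / p) = 1 / 2 := by
      field_simp
      norm_num
    rw [e6, ← Real.sqrt_eq_rpow] at h6
    rw [inv_mul_le_iff₀ h2d] at h6
    exact h6
  have h7 : 2 ^ d * |Matrix.trace (M * (B * Bᵀ))| ≤ 2 ^ d * (Real.sqrt 3 * N * T ^ (2 / p)) := by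
    calc 2 ^ d * |Matrix.trace (M * (B * Bᵀ))| = |∑ e, qf M (x e)| := by
          rw [h1, abs_mul, abs_of_pos h2d]
      _ ≤ ∑ e, |qf M (x e)| := Finset.abs_sum_le_sum_abs _ _
      _ ≤ ∑ e, N * S e ^ (2 / p) := by
          refine Finset.sum_le_sum fun e _ => ?_
          rw [← hpn]
          exact hM _
      _ = N * ∑ e, S e ^ (2 / p) := by rw [Finset.mul_sum]
      _ ≤ N * (2 ^ d * (Real.sqrt 3 * T ^ (2 / p))) := mul_le_mul_of_nonneg_left h4 hN
      _ = 2 ^ d * (Real.sqrt 3 * N * T ^ (2 / p)) := by ring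
  exact le_of_mul_le_mul_left h7 h2d

end Pool.Agent.H507R3.GI
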