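import Mathlib
import Pool.Agent.H507R3.GI.Defs

/-!
# Task SGN: random signs with fixed coefficients
-/

namespace Pool.Agent.H507R3.GI

open scoped BigOperators
open MeasureTheory ProbabilityTheory Matrix

/-- Hölder -/
theorem SGN_holder {d : ℕ} (p : ℝ) (hp : 2 < p) (u x : Fin d → ℝ) (hu : ∀ k, 0 < u k) :
    ∑ k, u k * x k ^ 2 ≤ sn p u * pn p x ^ 2 := by
  have h0 : 0 < p := by linarith
  have h2 : 0 < p - 2 := by linarith
  have hpq : (p / (p - 2)).HolderConjugate (p / 2) := by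
    rw [Real.holderConjugate_iff]
    refine ⟨?_, ?_⟩
    · rw [lt_div_iff₀ h2]; linarith
    · field_simp
      ring
  have h := Real.inner_le_Lp_mul_Lq_of_nonneg Finset.univ (f := u) (g := fun k => x k ^ 2) hpq
    (fun k _ => (hu k).le) (fun k _ => sq_nonneg _)
  have e1 : (1 : ℝ) / (p / (p - 2)) = (p - 2) / p := by field_simp
  have e2 : (1 : ℝ) / (p / 2) = 2 / p := by field_simp
  have e3 : ∀ k, (x k ^ 2) ^ (p / 2) = |x k| ^ p := by
    intro k
    rw [← sq_abs, ← Real.rpow_natCast, ← Real.rpow_mul (abs_nonneg _)]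
    congr 1
    push_cast
    field_simp
  have e4 : pn p x ^ 2 = (∑ k, |x k| ^ p) ^ (2 / p) := by
    unfold pn
    have hs : 0 ≤ ∑ k, |x k| ^ p := Finset.sum_nonneg fun k _ =>
      Real.rpow_nonneg (abs_nonneg _) _
    rw [← Real.rpow_natCast, ← Real.rpow_mul hs]
    congr 1
    push_cast
    field_simp
  rw [e1, e2] at h
  simp only [e3] at h
  rw [e4]
  exact h

theorem SGN_sn_nonneg {d : ℕ} (p : ℝ) (u : Fin d → ℝ) (hu : ∀ k, 0 < u k) : 0 ≤ sn p u :=
  Real.rpow_nonneg (Finset.sum_nonneg fun k _ => Real.rpow_nonneg (hu k).le _) _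

theorem t_SGN : S_SGN := by
  intro hNOR hTRI hDIF hMOM hOPN hFST d n p M u g G hd hp hp4 hM hu hy hG hg
  have hsu : ∀ k, 0 < Real.sqrt (u k) := fun k => Real.sqrt_pos.2 (hu k)
  have hsq : ∀ k, Real.sqrt (u k) ^ 2 = u k := fun k => Real.sq_sqrt (hu k).le
  set A : Fin n → Matrix (Fin d) (Fin d) ℝ := fun i => Matrix.of fun k l =>
    g i * M i k l / (Real.sqrt (u k) * Real.sqrt (u l)) with hA
  have hAe : ∀ i k l, A i k l = g i * M i k l / (Real.sqrt (u k) * Real.sqrt (u l)) :=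
    fun i k l => rfl
  have hAs : ∀ i, (A i).IsSymm := by
    intro i
    refine Matrix.IsSymm.ext fun k l => ?_
    rw [hAe, hAe, (hM i).apply k l, mul_comm (Real.sqrt (u k))]
  have hσ : ∀ x : Fin d → ℝ, ∑ i, ∑ k, ((A i *ᵥ x) k) ^ 2 ≤ G ^ 2 * ∑ k, x k ^ 2 := by
    intro x
    set y : Fin d → ℝ := fun l => x l / Real.sqrt (u l) with hydef
    have h1 : ∀ i k, (A i *ᵥ x) k = g i / Real.sqrt (u k) * (M i *ᵥ y) k := by
      intro i k
      simp only [Matrix.mulVec, dotProduct]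
      rw [Finset.mul_sum]
      refine Finset.sum_congr rfl fun l _ => ?_
      rw [hAe, hydef]
      have := (hsu k).ne'
      have := (hsu l).ne'
      field_simp
    have h2 : ∀ i k, ((A i *ᵥ x) k) ^ 2 ≤ G ^ 2 * (((M i *ᵥ y) k) ^ 2 / u k) := by
      intro i k
      rw [h1, mul_pow, div_pow, hsq]
      have h3 : g i ^ 2 ≤ G ^ 2 := by
        rw [← sq_abs (g i)]
        exact pow_le_pow_left₀ (abs_nonneg _) (hg i) 2
      have h4 : 0 ≤ ((M i *ᵥ y) k) ^ 2 / u k := div_nonneg (sq_nonneg _) (hu k).le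
      calc g i ^ 2 / u k * ((M i *ᵥ y) k) ^ 2 = g i ^ 2 * (((M i *ᵥ y) k) ^ 2 / u k) := by ring
        _ ≤ G ^ 2 * (((M i *ᵥ y) k) ^ 2 / u k) := mul_le_mul_of_nonneg_right h3 h4
    calc ∑ i, ∑ k, ((A i *ᵥ x) k) ^ 2
        ≤ ∑ i, ∑ k, G ^ 2 * (((M i *ᵥ y) k) ^ 2 / u k) :=
          Finset.sum_le_sum fun i _ => Finset.sum_le_sum fun k _ => h2 i k
      _ = G ^ 2 * ∑ i, ∑ k, ((M i *ᵥ y) k) ^ 2 / u k := by
          rw [Finset.mul_sum]
          refine Finset.sum_congr rfl fun i _ => ?_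
          rw [Finset.mul_sum]
      _ ≤ G ^ 2 * ∑ k, u k * y k ^ 2 := mul_le_mul_of_nonneg_left (hy y) (sq_nonneg _)
      _ = G ^ 2 * ∑ k, x k ^ 2 := by
          congr 1
          refine Finset.sum_congr rfl fun k _ => ?_
          rw [hydef]
          simp only
          rw [div_pow, hsq]
          have := (hu k).ne'
          field_simp
  have hmom := hMOM hTRI hDIF d n A (G ^ 2) hAs (sq_nonneg _) hσ
  have hRXs : ∀ e : Fin n → Bool, (RX A e).IsSymm := by
    intro e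
    unfold RX
    refine Matrix.IsSymm.ext fun k l => ?_
    rw [Matrix.sum_apply, Matrix.sum_apply]
    refine Finset.sum_congr rfl fun i _ => ?_
    rw [Matrix.smul_apply, Matrix.smul_apply, (hAs i).apply k l]
  obtain ⟨q, hq, hq2⟩ := hFST d n (G ^ 2) (fun q e => trace (RX A e ^ (2 * q))) hd (sq_nonneg _)
    (fun q e hq => (hOPN d q (RX A e) 0 (hRXs e) hq).1) (fun q _ => hmom q)
  have hsn := SGN_sn_nonneg p u hu
  have hT0 : ∀ e, 0 ≤ trace (RX A e ^ (2 * q)) := fun e => (hOPN d q (RX A e) 0 (hRXs e) hq).1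
  have hbound : ∀ e : Fin n → Bool, injN p (∑ i, (sg (e i) * g i) • M i) ≤
      (trace (RX A e ^ (2 * q))) ^ (1 / (2 * q : ℝ)) * sn p u := by
    intro e
    refine (hNOR d p _ hp).2.2 _ (mul_nonneg (Real.rpow_nonneg (hT0 e) _) hsn) fun x => ?_
    have h1 : qf (∑ i, (sg (e i) * g i) • M i) x =
        qf (RX A e) (fun k => Real.sqrt (u k) * x k) := by
      unfold qf
      refine Finset.sum_congr rfl fun k _ => Finset.sum_congr rfl fun l _ => ?_
      have hk := (hsu k).ne'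
      have hl := (hsu l).ne'
      have h3 : (RX A e) k l = (∑ i, (sg (e i) * g i) • M i) k l /
          (Real.sqrt (u k) * Real.sqrt (u l)) := by
        unfold RX
        rw [Matrix.sum_apply, Matrix.sum_apply, Finset.sum_div]
        refine Finset.sum_congr rfl fun i _ => ?_
        rw [Matrix.smul_apply, Matrix.smul_apply, hAe, smul_eq_mul, smul_eq_mul]
        ring
      rw [h3]
      field_simp
    have h2 := (hOPN d q (RX A e) (fun k => Real.sqrt (u k) * x k) (hRXs e) hq).2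
    rw [h1]
    refine h2.trans ?_
    have h4 : ∑ k, (Real.sqrt (u k) * x k) ^ 2 = ∑ k, u k * x k ^ 2 :=
      Finset.sum_congr rfl fun k _ => by rw [mul_pow, hsq]
    rw [h4, mul_assoc]
    exact mul_le_mul_of_nonneg_left (SGN_holder p hp u x hu) (Real.rpow_nonneg (hT0 e) _)
  calc ∑ e : Fin n → Bool, injN p (∑ i, (sg (e i) * g i) • M i)
      ≤ ∑ e : Fin n → Bool, (trace (RX A e ^ (2 * q))) ^ (1 / (2 * q : ℝ)) * sn p u :=
        Finset.sum_le_sum fun e _ => hbound e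
    _ = (∑ e : Fin n → Bool, (trace (RX A e ^ (2 * q))) ^ (1 / (2 * q : ℝ))) * sn p u := by
        rw [Finset.sum_mul]
    _ ≤ (2 ^ n * (4 * Real.sqrt (G ^ 2 * (2 + Real.log d)))) * sn p u :=
        mul_le_mul_of_nonneg_right hq2 hsn
    _ = 2 ^ n * (4 * G * Real.sqrt (2 + Real.log d) * sn p u) := by
        rw [Real.sqrt_mul (sq_nonneg _), Real.sqrt_sq hG]
        ring

end Pool.Agent.H507R3.GI
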