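import Mathlib
import Pool.Agent.H507R3.GI.Defs

/-!
# Project GI, task SWT: the master weight
-/

namespace Pool.Agent.H507R3.GI

open scoped BigOperators
open MeasureTheory ProbabilityTheory Matrix

theorem swt_nonneg {d : ℕ} (p : ℝ) (w : Fin d → ℝ) (hw : ∀ k, 0 ≤ w k) : 0 ≤ sn p w :=
  Real.rpow_nonneg (Finset.sum_nonneg fun k _ => Real.rpow_nonneg (hw k) _) _

theorem swt_add {d : ℕ} (p : ℝ) (hp : 2 < p) (v w : Fin d → ℝ) (hv : ∀ k, 0 ≤ v k)
    (hw : ∀ k, 0 ≤ w k) : sn p (fun k => v k + w k) ≤ sn p v + sn p w := by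
  have h1 : 1 ≤ p / (p - 2) := by
    rw [le_div_iff₀ (by linarith)]; linarith
  have h2 : (p - 2) / p = 1 / (p / (p - 2)) := by rw [one_div_div]
  unfold sn
  rw [h2]
  exact Real.Lp_add_le_of_nonneg Finset.univ h1 (fun k _ => hv k) (fun k _ => hw k)

theorem swt_smul {d : ℕ} (p : ℝ) (hp : 2 < p) (a : ℝ) (ha : 0 ≤ a) (w : Fin d → ℝ)
    (hw : ∀ k, 0 ≤ w k) : sn p (fun k => a * w k) = a * sn p w := by
  have h0 : p / (p - 2) * ((p - 2) / p) = 1 := by
    have : p - 2 ≠ 0 := by linarith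
    have : p ≠ 0 := by linarith
    field_simp
  unfold sn
  have h1 : ∑ k, (a * w k) ^ (p / (p - 2)) = a ^ (p / (p - 2)) * ∑ k, w k ^ (p / (p - 2)) := by
    rw [Finset.mul_sum]
    apply Finset.sum_congr rfl
    intro k _
    exact Real.mul_rpow ha (hw k)
  rw [h1, Real.mul_rpow (Real.rpow_nonneg ha _)
    (Finset.sum_nonneg fun k _ => Real.rpow_nonneg (hw k) _), ← Real.rpow_mul ha, h0,
    Real.rpow_one]

theorem swt_const {d : ℕ} (p : ℝ) (hp : 2 < p) (t : ℝ) (ht : 0 ≤ t) :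
    sn p (fun _ : Fin d => t) = t * (d : ℝ) ^ ((p - 2) / p) := by
  have h0 : p / (p - 2) * ((p - 2) / p) = 1 := by
    have : p - 2 ≠ 0 := by linarith
    have : p ≠ 0 := by linarith
    field_simp
  unfold sn
  rw [Finset.sum_const, Finset.card_univ, Fintype.card_fin, nsmul_eq_mul,
    Real.mul_rpow (Nat.cast_nonneg d) (Real.rpow_nonneg ht _), ← Real.rpow_mul ht, h0,
    Real.rpow_one, mul_comm]

theorem swt_sum {d n : ℕ} (p : ℝ) (hp : 2 < p) (f : Fin n → Fin d → ℝ) (hf : ∀ i k, 0 ≤ f i k)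
    (S : Finset (Fin n)) : sn p (fun k => ∑ i ∈ S, f i k) ≤ ∑ i ∈ S, sn p (f i) := by
  classical
  induction S using Finset.induction_on with
  | empty =>
    simp only [Finset.sum_empty]
    rw [swt_const p hp 0 le_rfl, zero_mul]
  | insert j S hj ih =>
    rw [Finset.sum_insert hj]
    have h1 : (fun k => ∑ i ∈ insert j S, f i k) = fun k => f j k + ∑ i ∈ S, f i k := by
      funext k
      rw [Finset.sum_insert hj]
    rw [h1]
    have h2 := swt_add p hp (f j) (fun k => ∑ i ∈ S, f i k) (hf j)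
      (fun k => Finset.sum_nonneg fun i _ => hf i k)
    linarith

theorem swt_single {d : ℕ} (p : ℝ) (hp : 2 < p) (w : Fin d → ℝ) (hw : ∀ k, 0 ≤ w k)
    (k : Fin d) : w k ≤ sn p w := by
  have h0 : p / (p - 2) * ((p - 2) / p) = 1 := by
    have : p - 2 ≠ 0 := by linarith
    have : p ≠ 0 := by linarith
    field_simp
  have h1 : w k = (w k ^ (p / (p - 2))) ^ ((p - 2) / p) := by
    rw [← Real.rpow_mul (hw k), h0, Real.rpow_one]
  rw [h1]
  unfold sn
  apply Real.rpow_le_rpow (Real.rpow_nonneg (hw k) _)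
  · exact Finset.single_le_sum (f := fun k => w k ^ (p / (p - 2)))
      (fun i _ => Real.rpow_nonneg (hw i) _) (Finset.mem_univ k)
  · apply div_nonneg <;> linarith

/-- polarisation -/
theorem swt_pol {d : ℕ} (M : Matrix (Fin d) (Fin d) ℝ) (hM : M.IsSymm) (z y : Fin d → ℝ) :
    qf M (fun k => z k + y k) - qf M (fun k => z k - y k) = 4 * ∑ k, z k * (M *ᵥ y) k := by
  have h1 : ∑ k, z k * (M *ᵥ y) k = ∑ k, ∑ l, M k l * z k * y l := by
    apply Finset.sum_congr rfl
    intro k _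
    rw [Matrix.mulVec, dotProduct, Finset.mul_sum]
    apply Finset.sum_congr rfl
    intro l _
    ring
  have h2 : ∑ k, z k * (M *ᵥ y) k = ∑ k, ∑ l, M k l * y k * z l := by
    rw [h1, Finset.sum_comm]
    apply Finset.sum_congr rfl
    intro k _
    apply Finset.sum_congr rfl
    intro l _
    rw [hM.apply k l]; ring
  have h3 : 4 * ∑ k, z k * (M *ᵥ y) k =
      2 * (∑ k, ∑ l, M k l * z k * y l) + 2 * ∑ k, ∑ l, M k l * y k * z l := by
    rw [← h1, ← h2]; ring
  rw [h3]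
  unfold qf
  rw [← Finset.sum_sub_distrib, Finset.mul_sum, Finset.mul_sum, ← Finset.sum_add_distrib]
  apply Finset.sum_congr rfl
  intro k _
  rw [← Finset.sum_sub_distrib, Finset.mul_sum, Finset.mul_sum, ← Finset.sum_add_distrib]
  apply Finset.sum_congr rfl
  intro l _
  ring

theorem swt_cs {d : ℕ} (M : Matrix (Fin d) (Fin d) ℝ) (hM : M.IsSymm) (w : Fin d → ℝ)
    (h : IsW M w) (z y : Fin d → ℝ) :
    2 * ∑ k, z k * (M *ᵥ y) k ≤ ∑ k, w k * z k ^ 2 + ∑ k, w k * y k ^ 2 := by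
  have h1 := swt_pol M hM z y
  have h2 := (abs_le.1 (h.2 (fun k => z k + y k))).2
  have h3 := (abs_le.1 (h.2 (fun k => z k - y k))).1
  have h4 : ∑ k, w k * (z k + y k) ^ 2 + ∑ k, w k * (z k - y k) ^ 2 =
      2 * ∑ k, w k * z k ^ 2 + 2 * ∑ k, w k * y k ^ 2 := by
    rw [← Finset.sum_add_distrib, Finset.mul_sum, Finset.mul_sum, ← Finset.sum_add_distrib]
    apply Finset.sum_congr rfl
    intro k _
    ring
  linarith

theorem swt_one {d : ℕ} (M : Matrix (Fin d) (Fin d) ℝ) (hM : M.IsSymm) (w u : Fin d → ℝ) (a : ℝ)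
    (h : IsW M w) (hu : ∀ k, 0 < u k) (ha : 0 ≤ a) (hwu : ∀ k, w k ≤ a * u k)
    (y : Fin d → ℝ) : ∑ k, ((M *ᵥ y) k) ^ 2 / u k ≤ a * ∑ k, w k * y k ^ 2 := by
  rcases ha.eq_or_lt with h0 | h0
  · subst h0
    have hw0 : ∀ k, w k = 0 := fun k => le_antisymm (by have := hwu k; linarith) (h.1 k)
    have h1 := swt_cs M hM w h (fun k => (M *ᵥ y) k / u k) y
    have h2 : ∑ k, (M *ᵥ y) k / u k * (M *ᵥ y) k = ∑ k, ((M *ᵥ y) k) ^ 2 / u k := by
      apply Finset.sum_congr rfl
      intro k _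
      ring
    simp only [hw0, zero_mul, Finset.sum_const_zero, add_zero] at h1 ⊢
    rw [h2] at h1
    linarith
  · have h1 := swt_cs M hM w h (fun k => 1 / a * ((M *ᵥ y) k / u k)) y
    have h2 : ∑ k, 1 / a * ((M *ᵥ y) k / u k) * (M *ᵥ y) k =
        1 / a * ∑ k, ((M *ᵥ y) k) ^ 2 / u k := by
      rw [Finset.mul_sum]
      apply Finset.sum_congr rfl
      intro k _
      ring
    have h3 : ∑ k, w k * (1 / a * ((M *ᵥ y) k / u k)) ^ 2 ≤
        1 / a * ∑ k, ((M *ᵥ y) k) ^ 2 / u k := by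
      rw [Finset.mul_sum]
      apply Finset.sum_le_sum
      intro k _
      have e1 : w k * (1 / a * ((M *ᵥ y) k / u k)) ^ 2 =
          (w k / (a * u k)) * (1 / a * (((M *ᵥ y) k) ^ 2 / u k)) := by
        have := (hu k).ne'
        field_simp
      rw [e1]
      have e2 : w k / (a * u k) ≤ 1 := by
        rw [div_le_one (mul_pos h0 (hu k))]
        exact hwu k
      have e3 : 0 ≤ 1 / a * (((M *ᵥ y) k) ^ 2 / u k) := by
        have := hu k
        positivity
      calc _ ≤ 1 * (1 / a * (((M *ᵥ y) k) ^ 2 / u k)) := mul_le_mul_of_nonneg_right e2 e3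
        _ = _ := one_mul _
    rw [h2] at h1
    have h4 : 1 / a * ∑ k, ((M *ᵥ y) k) ^ 2 / u k ≤ ∑ k, w k * y k ^ 2 := by linarith
    calc ∑ k, ((M *ᵥ y) k) ^ 2 / u k = a * (1 / a * ∑ k, ((M *ᵥ y) k) ^ 2 / u k) := by
          field_simp
      _ ≤ _ := mul_le_mul_of_nonneg_left h4 h0.le

theorem t_SWT : S_SWT := by
  intro d n p M w c hd hp hp4 hM hW hc hV
  set V := ∑ i, c i ^ 2 with hVd
  have hd0 : (0 : ℝ) < d := by exact_mod_cast hd
  have hsV : 0 < Real.sqrt V := Real.sqrt_pos.2 hV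
  set D : ℝ := (d : ℝ) ^ ((1 : ℝ) / 2 - 1 / p) with hD
  have hD0 : 0 < D := Real.rpow_pos_of_pos hd0 _
  have hDD : (d : ℝ) ^ ((p - 2) / p) = D * D := by
    rw [hD, ← Real.rpow_add hd0]
    congr 1
    have : p ≠ 0 := by linarith
    field_simp
    ring
  set t : ℝ := Real.sqrt V / D with ht
  have ht0 : 0 < t := div_pos hsV hD0
  have hw0 : ∀ i k, 0 ≤ w i k := fun i k => (hW i).1 k
  have hc0 : ∀ i, 0 ≤ c i := fun i => (swt_nonneg p (w i) (hw0 i)).trans (hc i)
  have hg0 : ∀ i k, 0 ≤ (c i / t) * w i k := fun i k =>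
    mul_nonneg (div_nonneg (hc0 i) ht0.le) (hw0 i k)
  have hge : ∀ k, t ≤ t + ∑ i, (c i / t) * w i k := fun k => by
    have : 0 ≤ ∑ i, (c i / t) * w i k := Finset.sum_nonneg fun i _ => hg0 i k
    linarith
  refine ⟨fun k => t + ∑ i, (c i / t) * w i k, fun k => ht0.trans_le (hge k), ?_, ?_⟩
  · have h1 := swt_add p hp (fun _ : Fin d => t) (fun k => ∑ i, (c i / t) * w i k)
      (fun _ => ht0.le) (fun k => Finset.sum_nonneg fun i _ => hg0 i k)
    have h2 := swt_sum p hp (fun i k => (c i / t) * w i k) hg0 Finset.univ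
    have h3 : ∑ i, sn p (fun k => (c i / t) * w i k) ≤ V / t := by
      rw [hVd, Finset.sum_div]
      apply Finset.sum_le_sum
      intro i _
      rw [swt_smul p hp _ (div_nonneg (hc0 i) ht0.le) (w i) (hw0 i)]
      calc c i / t * sn p (w i) ≤ c i / t * c i :=
            mul_le_mul_of_nonneg_left (hc i) (div_nonneg (hc0 i) ht0.le)
        _ = c i ^ 2 / t := by ring
    rw [swt_const p hp t ht0.le, hDD] at h1
    have h4 : t * (D * D) = D * Real.sqrt V := by
      rw [ht]; field_simp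
    have h5 : V / t = D * Real.sqrt V := by
      rw [ht, div_div_eq_mul_div, div_eq_iff hsV.ne', mul_assoc, Real.mul_self_sqrt hV.le]
      ring
    have h6 : sn p (fun k => t + ∑ i, (c i / t) * w i k) ≤ D * Real.sqrt V + D * Real.sqrt V := by
      calc _ ≤ _ := h1
        _ ≤ D * Real.sqrt V + D * Real.sqrt V := by
          rw [h4]
          have := h2.trans h3
          rw [h5] at this
          linarith
    linarith
  · intro y
    have h1 : ∀ i, ∑ k, ((M i *ᵥ y) k) ^ 2 / (t + ∑ i, (c i / t) * w i k) ≤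
        (c i / t) * ∑ k, w i k * y k ^ 2 := by
      intro i
      apply swt_one (M i) (hM i) (w i) (fun k => t + ∑ i, (c i / t) * w i k) (c i / t) (hW i)
        (fun k => ht0.trans_le (hge k)) (div_nonneg (hc0 i) ht0.le)
      intro k
      calc w i k ≤ sn p (w i) := swt_single p hp (w i) (hw0 i) k
        _ ≤ c i := hc i
        _ = c i / t * t := by field_simp
        _ ≤ c i / t * (t + ∑ i, (c i / t) * w i k) :=
          mul_le_mul_of_nonneg_left (hge k) (div_nonneg (hc0 i) ht0.le)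
    calc ∑ i, ∑ k, ((M i *ᵥ y) k) ^ 2 / (t + ∑ i, (c i / t) * w i k)
        ≤ ∑ i, (c i / t) * ∑ k, w i k * y k ^ 2 := Finset.sum_le_sum fun i _ => h1 i
      _ = ∑ k, (∑ i, (c i / t) * w i k) * y k ^ 2 := by
          simp_rw [Finset.mul_sum, Finset.sum_mul]
          rw [Finset.sum_comm]
          apply Finset.sum_congr rfl
          intro k _
          apply Finset.sum_congr rfl
          intro i _
          ring
      _ ≤ ∑ k, (t + ∑ i, (c i / t) * w i k) * y k ^ 2 := by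
          apply Finset.sum_le_sum
          intro k _
          apply mul_le_mul_of_nonneg_right _ (sq_nonneg _)
          linarith

end Pool.Agent.H507R3.GI
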