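import Pool.Agent.H507R3.GI.Defs

namespace Pool.Agent.H507R3.GI

open scoped BigOperators
open MeasureTheory ProbabilityTheory Matrix

theorem t_SYM : S_SYM := by
  intro hG n f K L hn hK hL hf hf0 hfL hfs
  obtain ⟨h, hh, hhi, hhb⟩ := hG n hn
  set ν : Measure (Fin n → ℝ) := Measure.pi fun _ : Fin n => gaussianReal 0 1 with hν
  have hh0 : ∀ g, 0 ≤ h g := fun g => (abs_nonneg _).trans (hh g ⟨0, hn⟩)
  -- integrability
  have hfi : Integrable f ν := by
    refine Integrable.mono' (hhi.const_mul (L * n)) hf.aestronglyMeasurable ?_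
    refine Filter.Eventually.of_forall fun g => ?_
    rw [Real.norm_of_nonneg (hf0 g)]
    calc f g ≤ L * ∑ i, |g i| := hfL g
      _ ≤ L * ∑ _i : Fin n, h g := by
          gcongr with i
          exact hh g i
      _ = L * n * h g := by
          rw [Finset.sum_const, Finset.card_univ, Fintype.card_fin, nsmul_eq_mul]; ring
  -- invariance
  have hmp : ∀ e : Fin n → Bool,
      MeasurePreserving (fun (g : Fin n → ℝ) i => sg (e i) * g i) ν ν := by
    intro e
    refine measurePreserving_pi (fun _ : Fin n => gaussianReal 0 1)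
      (fun _ : Fin n => gaussianReal 0 1) (f := fun i x => sg (e i) * x) ?_
    intro i
    refine ⟨measurable_const_mul _, ?_⟩
    rw [gaussianReal_map_const_mul]
    unfold sg
    split_ifs
    · congr 1
      · simp
      · ext; simp
    · congr 1
      · simp
      · ext; simp
  have hint : ∀ e : Fin n → Bool, ∫ g, f (fun i => sg (e i) * g i) ∂ν = ∫ g, f g ∂ν := by
    intro e
    have h1 := integral_map (hmp e).measurable.aemeasurable
      (f := f) (μ := ν) (by rw [(hmp e).map_eq]; exact hf.aestronglyMeasurable)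
    rw [(hmp e).map_eq] at h1
    exact h1.symm
  have hinteg : ∀ e : Fin n → Bool, Integrable (fun g => f (fun i => sg (e i) * g i)) ν := by
    intro e
    exact (hmp e).integrable_comp_of_integrable hfi
  have hcard : (Finset.univ : Finset (Fin n → Bool)).card = 2 ^ n := by
    simp
  have h2 : (2 : ℝ) ^ n * ∫ g, f g ∂ν = ∑ e : Fin n → Bool, ∫ g, f (fun i => sg (e i) * g i) ∂ν := by
    rw [Finset.sum_congr rfl (fun e _ => hint e), Finset.sum_const, hcard, nsmul_eq_mul]
    push_cast
    rfl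
  have h3 : ∑ e : Fin n → Bool, ∫ g, f (fun i => sg (e i) * g i) ∂ν =
      ∫ g, ∑ e : Fin n → Bool, f (fun i => sg (e i) * g i) ∂ν :=
    (integral_finsetSum _ (fun e _ => hinteg e)).symm
  have h4 : ∫ g, ∑ e : Fin n → Bool, f (fun i => sg (e i) * g i) ∂ν ≤
      ∫ g, 2 ^ n * (K * h g) ∂ν := by
    apply integral_mono (integrable_finsetSum _ (fun e _ => hinteg e))
      ((hhi.const_mul K).const_mul _)
    intro g
    exact hfs g (h g) (hh0 g) (hh g)
  have h5 : ∫ g, 2 ^ n * (K * h g) ∂ν = 2 ^ n * (K * ∫ g, h g ∂ν) := by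
    rw [integral_const_mul, integral_const_mul]
  have h6 : (2 : ℝ) ^ n * ∫ g, f g ∂ν ≤ 2 ^ n * (K * ∫ g, h g ∂ν) := by
    rw [h2, h3, ← h5]
    exact h4
  have h7 : ∫ g, f g ∂ν ≤ K * ∫ g, h g ∂ν := le_of_mul_le_mul_left h6 (by positivity)
  refine h7.trans ?_
  gcongr

end Pool.Agent.H507R3.GI
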