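import Mathlib
import Pool.Agent.H507R3.GI.Defs

namespace Pool.Agent.H507R3.GI

open scoped BigOperators
open MeasureTheory ProbabilityTheory Matrix

theorem wgt_qf_neg {d : ℕ} (M : Matrix (Fin d) (Fin d) ℝ) (x : Fin d → ℝ) :
    qf (-M) x = - qf M x := by
  unfold qf
  rw [← Finset.sum_neg_distrib]
  refine Finset.sum_congr rfl fun k _ => ?_
  rw [← Finset.sum_neg_distrib]
  refine Finset.sum_congr rfl fun l _ => ?_
  simp only [Matrix.neg_apply]
  ring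

theorem wgt_sn_add {d : ℕ} {p : ℝ} (hp : 2 < p) (w1 w2 : Fin d → ℝ) (h1 : ∀ k, 0 ≤ w1 k)
    (h2 : ∀ k, 0 ≤ w2 k) : sn p (fun k => w1 k + w2 k) ≤ sn p w1 + sn p w2 := by
  unfold sn
  have hp2 : 0 < p - 2 := by linarith
  have he : (1:ℝ) ≤ p / (p - 2) := by
    rw [le_div_iff₀ hp2]
    linarith
  have hi : (p - 2) / p = 1 / (p / (p - 2)) := by
    rw [one_div_div]
  rw [hi]
  exact Real.Lp_add_le_of_nonneg Finset.univ he (fun k _ => h1 k) (fun k _ => h2 k)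

theorem t_WGT : S_WGT := by
  intro hKH hRND hMAX d p N M hp hp4 hN hM hb
  have hL : 0 ≤ Real.sqrt 3 * N := mul_nonneg (Real.sqrt_nonneg _) hN
  have hr := fun B : Matrix (Fin d) (Fin d) ℝ => hRND hKH d p N M B hp hp4 hN hb
  obtain ⟨w1, h1, h1', h1''⟩ := hMAX d p (Real.sqrt 3 * N) M hp hp4 hL hM
    (fun B => (le_abs_self _).trans (hr B))
  obtain ⟨w2, h2, h2', h2''⟩ := hMAX d p (Real.sqrt 3 * N) (-M) hp hp4 hL hM.neg (by
    intro B
    rw [Matrix.neg_mul, Matrix.trace_neg]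
    exact (neg_le_abs _).trans (hr B))
  refine ⟨fun k => w1 k + w2 k, ⟨fun k => add_nonneg (h1 k) (h2 k), ?_⟩, ?_⟩
  · intro x
    have hs : ∑ k, (w1 k + w2 k) * x k ^ 2 = ∑ k, w1 k * x k ^ 2 + ∑ k, w2 k * x k ^ 2 := by
      rw [← Finset.sum_add_distrib]
      exact Finset.sum_congr rfl fun k _ => by ring
    have e1 : 0 ≤ ∑ k, w1 k * x k ^ 2 :=
      Finset.sum_nonneg fun k _ => mul_nonneg (h1 k) (sq_nonneg _)
    have e2 : 0 ≤ ∑ k, w2 k * x k ^ 2 :=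
      Finset.sum_nonneg fun k _ => mul_nonneg (h2 k) (sq_nonneg _)
    have e3 := h1' x
    have e4 := h2' x
    rw [wgt_qf_neg] at e4
    show |qf M x| ≤ ∑ k, (w1 k + w2 k) * x k ^ 2
    rw [hs, abs_le]
    constructor <;> linarith
  · have h3 := wgt_sn_add hp w1 w2 h1 h2
    have h4 : Real.sqrt 3 ≤ 2 := by
      rw [Real.sqrt_le_left (by norm_num)]
      norm_num
    have h5 : Real.sqrt 3 * N ≤ 2 * N := mul_le_mul_of_nonneg_right h4 hN
    linarith

end Pool.Agent.H507R3.GI
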